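import Mathlib

/-!
Monster models, the strict order property and G-compactness.
-/

set_option autoImplicit false

namespace Pool.Agent.Lib.MP_e4697a_lc

open FirstOrder

variable (L : FirstOrder.Language.{0, 0}) (M : Type 1) [L.Structure M] (κ : Cardinal.{1})

/-- `M` is `κ`-saturated: every finitely satisfiable set of formulas in one variable with
parameters from a set `A` of size `< κ` is realised in `M`. -/
def Saturated : Prop :=
  ∀ A : Set M, Cardinal.mk A < κ → ∀ p : Set (L.Formula (Option A)),
    (∀ s : Finset (L.Formula (Option A)), (s : Set (L.Formula (Option A))) ⊆ p →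
      ∃ c : M, ∀ φ ∈ s, φ.Realize fun o => o.elim c Subtype.val) →
    ∃ c : M, ∀ φ ∈ p, φ.Realize fun o => o.elim c Subtype.val

/-- `M` is strongly `κ`-homogeneous: tuples of length `< κ` with the same type are conjugate
under an automorphism. -/
def StronglyHomogeneous : Prop :=
  ∀ I : Type 1, Cardinal.mk I < κ → ∀ a b : I → M,
    (∀ φ : L.Formula I, φ.Realize a ↔ φ.Realize b) → ∃ σ : FirstOrder.Language.Equiv L M M, σ ∘ a = b

/-- `M` is a monster model, small meaning of size `< κ`: `κ` is an inaccessible cardinal
larger than the language, and `M` is a `κ`-saturated, strongly `κ`-homogeneous structure of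
size `κ`. -/
def IsMonster : Prop :=
  κ.IsInaccessible ∧ Cardinal.lift.{1} L.card < κ ∧ Cardinal.mk M = κ ∧
    Saturated L M κ ∧ StronglyHomogeneous L M κ

/-- The strict order property: some formula `φ(x,y)` with `|x| = |y|` defines a transitive and
antisymmetric relation with an infinite chain (strict and non-strict orders are both covered). -/
def HasSOP : Prop :=
  ∃ (n : ℕ) (φ : L.Formula (Fin n ⊕ Fin n)),
    (∀ a b c : Fin n → M, φ.Realize (Sum.elim a b) → φ.Realize (Sum.elim b c) →
      φ.Realize (Sum.elim a c)) ∧
    (∀ a b : Fin n → M, φ.Realize (Sum.elim a b) → φ.Realize (Sum.elim b a) → a = b) ∧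
    ∃ S : Set (Fin n → M), S.Infinite ∧ IsChain (fun a b => φ.Realize (Sum.elim a b)) S

/-- invariant under all automorphisms -/
def Invariant {I : Type 1} (E : Setoid (I → M)) : Prop :=
  ∀ (σ : FirstOrder.Language.Equiv L M M) (a b : I → M), E a b → E (σ ∘ a) (σ ∘ b)

/-- defined by a set of formulas without parameters -/
def TypeDefinable {I : Type 1} (E : Setoid (I → M)) : Prop :=
  ∃ p : Set (L.Formula (I ⊕ I)), ∀ a b : I → M, E a b ↔ ∀ φ ∈ p, φ.Realize (Sum.elim a b)

/-- fewer than `κ` classes -/
def Bounded {I : Type 1} (E : Setoid (I → M)) : Prop := Cardinal.mk (Quotient E) < κ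

/-- `E` is the finest bounded invariant equivalence relation (equality of Lascar strong types) -/
def IsLascar {I : Type 1} (E : Setoid (I → M)) : Prop :=
  IsLeast {F : Setoid (I → M) | Invariant L M F ∧ Bounded M κ F} E

/-- `E` is the finest bounded type-definable equivalence relation (equality of Kim-Pillay
strong types) -/
def IsKimPillay {I : Type 1} (E : Setoid (I → M)) : Prop :=
  IsLeast {F : Setoid (I → M) | TypeDefinable L M F ∧ Bounded M κ F} E

/-- G-compactness: on tuples of every small length the two relations coincide -/
def GCompact : Prop :=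
  ∀ I : Type 1, Cardinal.mk I < κ → ∀ EL EKP : Setoid (I → M),
    IsLascar L M κ EL → IsKimPillay L M κ EKP → EL = EKP

end Pool.Agent.Lib.MP_e4697a_lc
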