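import Pool.Agent.Lib.MP_e4697a_lc.QE
import Pool.Agent.Lib.MP_e4697a_lc.Defs

-- part Pool.Agent.Lib.MP_e4697a_lc.Sat
section

/-!
Saturation and strong homogeneity of the structure on the ordinals.
-/

set_option autoImplicit false

namespace Pool.Agent.Lib.MP_e4697a_lc

open FirstOrder FirstOrder.Language Filter

theorem small_of_lt {A : Type 1} (h : Cardinal.mk A < Cardinal.univ.{0, 1}) : Small.{0} A :=
  Cardinal.small_iff_lift_mk_lt_univ.2 (by simpa using h)

theorem lt_of_small (A : Type 1) [h : Small.{0} A] : Cardinal.mk A < Cardinal.univ.{0, 1} := by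
  simpa using Cardinal.small_iff_lift_mk_lt_univ.1 h

theorem norm_bdd (o x : OO) (l : ℕ) : ∃ B : ℤ, ∀ z, |DD x z l - DD o z 0 * sc l| ≤ B := by
  induction l with
  | zero =>
    refine ⟨|DD o x 0| + |DD x o 0|, fun z => ?_⟩
    have := DD_valid.tri x o z 0
    have := DD_valid.tri o x z 0
    have := le_abs_self (DD o x 0)
    have := le_abs_self (DD x o 0)
    have := abs_nonneg (DD o x 0)
    have := abs_nonneg (DD x o 0)
    rw [abs_le]; simp only [sc]; omega
  | succ l ih =>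
    obtain ⟨B, hB⟩ := ih
    refine ⟨Md (l + 1) * B + 2 * Md (l + 1), fun z => ?_⟩
    have h1 := abs_le.1 (hB z)
    have h2 := gg_mem x z l
    have h3 := Md_pos (l + 1)
    have h4 : DD x z (l + 1) - DD o z 0 * sc (l + 1) =
        Md (l + 1) * (DD x z l - DD o z 0 * sc l) - gg x z l := by
      rw [gg, sc_succ]; ring
    rw [h4, abs_le]
    constructor <;> nlinarith [h1.1, h1.2, h2.1, h2.2]

theorem ultra_point {ι κ : Type*} [Small.{0} κ] (U : Ultrafilter ι) (c : ι → OO) (a : κ → OO) :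
    ∃ c', ∀ i m, ∀ᶠ s in (U : Filter ι), Sm m (a i) (c s) (a i) c' := by
  by_cases hx : ∃ x, ∀ᶠ s in (U : Filter ι), c s = x
  · obtain ⟨x, hx⟩ := hx
    exact ⟨x, fun i m => hx.mono fun s hs => hs ▸ Sm.refl _ _ _⟩
  have hne : ∀ x, ∀ᶠ s in (U : Filter ι), x ≠ c s := fun x =>
    (Ultrafilter.eventually_not.2 fun h => hx ⟨x, h⟩).mono fun s hs e => hs e.symm
  have h1 : ∀ x l, ∃ b, ∀ᶠ s in (U : Filter ι), DD x (c s) l - DD 0 (c s) 0 * sc l = b := by
    intro x l
    obtain ⟨B, hB⟩ := norm_bdd 0 x l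
    exact ultra_lim U _ (Set.Icc (-B) B) (Set.finite_Icc _ _)
      (Eventually.of_forall fun s => abs_le.1 (hB _))
  have h2 : ∀ n, ∃ b, ∀ᶠ s in (U : Filter ι), pp (c s) n + (DD 0 (c s) 0 : ZMod (2 ^ n)) = b :=
    fun n => ultra_lim U _ Set.univ Set.finite_univ (Eventually.of_forall fun _ => trivial)
  choose P hP using h1
  choose g hg using h2
  obtain ⟨c', c1, c2, c3⟩ := ext_family a (fun i => P (a i)) (fun i l => CC l - P (a i) l)
    (fun i l => by
      obtain ⟨s, e0, e1, e2⟩ := ((hne (a i)).and ((hP (a i) l).and (hP (a i) (l + 1)))).exists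
      have := (DD_valid.link _ _ e0).gauge (-DD 0 (c s) 0) l
      simp only [neg_mul, ← sub_eq_add_neg, e1, e2] at this
      exact this)
    (fun i l => by
      obtain ⟨s, e0, e1, e2⟩ := ((hne (a i)).and ((hP (a i) l).and (hP (a i) (l + 1)))).exists
      have := (DD_valid.link _ _ e0.symm).gauge (DD 0 (c s) 0) l
      have e3 := DD_valid.eq _ _ e0 l
      have e4 := DD_valid.eq _ _ e0 (l + 1)
      simp only at this ⊢
      rw [show CC l - P (a i) l = DD (c s) (a i) l + DD 0 (c s) 0 * sc l by omega]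
      omega)
    (fun i j l => by
      obtain ⟨s, e1, e2⟩ := ((hP (a i) l).and (hP (a j) l)).exists
      have := DD_valid.tri (a j) (a i) (c s) l
      omega) g
  refine ⟨c', fun i m => ?_⟩
  have e1 : ∀ᶠ s in (U : Filter ι), ∀ l ∈ Set.Iic m,
      DD (a i) (c s) l - DD 0 (c s) 0 * sc l = P (a i) l :=
    (eventually_all_finite (Set.finite_Iic m)).2 fun l _ => hP _ l
  have e2 : ∀ᶠ s in (U : Filter ι), ∀ n ∈ Set.Iic m,
      pp (c s) n + (DD 0 (c s) 0 : ZMod (2 ^ n)) = g n :=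
    (eventually_all_finite (Set.finite_Iic m)).2 fun l _ => hg l
  refine (e1.and e2).mono fun s hs => Sm_of_DD (k := -DD 0 (c s) 0) (fun l hl => ?_) fun n hn => ?_
  · have := DD_valid.eq_of_le (c1 i) (c3 i l).1 (c3 i l).2 (by omega)
    have := hs.1 l hl
    linarith
  · rw [c2, ← hs.2 n hn.le]; push_cast; ring

theorem saturated : Saturated LL OO Cardinal.univ.{0, 1} := by
  classical
  intro A hA p H
  have := small_of_lt hA
  have H' : ∀ s : Finset p, ∃ c : OO, ∀ φ ∈ s, φ.1.Realize fun o => o.elim c Subtype.val := by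
    intro s
    obtain ⟨c, hc⟩ := H (s.image Subtype.val) (by
      intro φ hφ
      obtain ⟨ψ, -, rfl⟩ := Finset.mem_image.1 hφ
      exact ψ.2)
    exact ⟨c, fun φ hφ => hc _ (Finset.mem_image_of_mem _ hφ)⟩
  choose c hc using H'
  let U : Ultrafilter (Finset p) := Ultrafilter.of atTop
  obtain ⟨c', h⟩ := ultra_point U c (Subtype.val : A → OO)
  refine ⟨c', fun φ hφ => ?_⟩
  obtain ⟨m, s0, hq⟩ := qe φ
  have e1 : ∀ᶠ s in (U : Filter (Finset p)), (⟨φ, hφ⟩ : p) ∈ s :=
    Ultrafilter.of_le _ ((eventually_ge_atTop {(⟨φ, hφ⟩ : p)}).mono fun s hs =>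
      Finset.singleton_subset_iff.1 hs)
  have e2 : ∀ᶠ s in (U : Filter (Finset p)), ∀ i ∈ (s0 : Set (Option A)),
      ∀ a : A, i = some a → Sm m a (c s) a c' :=
    (eventually_all_finite s0.finite_toSet).2 fun i _ => by
      cases i with
      | none => exact Eventually.of_forall fun _ _ h => by simp at h
      | some a => exact (h a m).mono fun s hs b hb => by cases hb; exact hs
  obtain ⟨s, s1, s2⟩ := (e1.and e2).exists
  refine (hq _ _ ?_).1 (hc s _ s1)
  rintro (_ | i) hi (_ | j) hj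
  · exact Sm.diag _ _ _
  · exact (s2 _ hj j rfl).rev
  · exact s2 _ hi i rfl
  · exact Sm.refl _ _ _

/-- label-preserving sets of pairs -/
def Good (P : Set (OO × OO)) : Prop := ∀ u ∈ P, ∀ v ∈ P, ∀ m, Sm m u.1 v.1 u.2 v.2

theorem Good.ins {P : Set (OO × OO)} (h : Good P) {x y : OO}
    (hy : ∀ u ∈ P, ∀ m, Sm m u.1 x u.2 y) : Good (insert (x, y) P) := by
  rintro u (rfl | hu) v (rfl | hv) m
  · exact Sm.diag _ _ _
  · exact (hy v hv m).rev
  · exact hy u hu m
  · exact h u hu v hv m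

theorem Good.extend {P : Set (OO × OO)} [Small.{0} P] (h : Good P) (α : OO) :
    ∃ w : OO × OO, Good (insert (w.2, α) (insert (α, w.1) P)) := by
  obtain ⟨y, hy⟩ := forth_full (ι := P) (a := fun u => u.1.1) (b := fun u => u.1.2)
    (fun m i j => h i i.2 j j.2 m) α
  have h1 : Good (Insert.insert (α, y) P) := h.ins fun u hu m => hy m ⟨u, hu⟩
  obtain ⟨x, hx⟩ := forth_full (ι := ↥(Insert.insert (α, y) P)) (a := fun u => u.1.2)
    (b := fun u => u.1.1) (fun m i j => (h1 i i.2 j j.2 m).symm) α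
  exact ⟨(y, x), h1.ins fun u hu m => (hx m ⟨u, hu⟩).symm⟩

/-- the pairs chosen at the stages in `S` -/
def stage (P : Set (OO × OO)) (f : OO → OO × OO) (S : Set OO) : Set (OO × OO) :=
  P ∪ ((fun γ => (γ, (f γ).1)) '' S ∪ (fun γ => ((f γ).2, γ)) '' S)

theorem good_of_stages {P : Set (OO × OO)} (hP : Good P) {f : OO → OO × OO} {S : Set OO}
    (h : ∀ γ ∈ S, Good (stage P f (Set.Iic γ))) : Good (stage P f S) := by
  have key : ∀ u ∈ stage P f S, u ∈ P ∨ ∃ γ ∈ S, ∀ δ, γ ≤ δ → u ∈ stage P f (Set.Iic δ) := by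
    rintro u (hu | ⟨γ, hγ, rfl⟩ | ⟨γ, hγ, rfl⟩)
    · exact Or.inl hu
    · exact Or.inr ⟨γ, hγ, fun δ hδ => Or.inr (Or.inl ⟨γ, hδ, rfl⟩)⟩
    · exact Or.inr ⟨γ, hγ, fun δ hδ => Or.inr (Or.inr ⟨γ, hδ, rfl⟩)⟩
  intro u hu v hv
  rcases key u hu with hu | ⟨γ, hγ, hu⟩ <;> rcases key v hv with hv | ⟨δ, hδ, hv⟩
  · exact hP u hu v hv
  · exact h δ hδ u (Or.inl hu) v (hv δ le_rfl)
  · exact h γ hγ u (hu γ le_rfl) v (Or.inl hv)
  · rcases le_total γ δ with hh | hh
    · exact h δ hδ u (hu δ hh) v (hv δ le_rfl)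
    · exact h γ hγ u (hu γ le_rfl) v (hv γ hh)

theorem exists_equiv {ι : Type*} [Small.{0} ι] {a b : ι → OO} (h : ∀ m, Agree m a b) :
    ∃ σ : FirstOrder.Language.Equiv LL OO OO, σ ∘ a = b := by
  classical
  let P : Set (OO × OO) := Set.range fun i => (a i, b i)
  have hP : Good P := by
    rintro _ ⟨i, rfl⟩ _ ⟨j, rfl⟩ m
    exact h m i j
  obtain ⟨f, hf⟩ := ord_build (β := OO × OO) (fun α f => Good (stage P f (Set.Iic α)))
    (fun α f g hfg H => by
      have : stage P f (Set.Iic α) = stage P g (Set.Iic α) := by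
        unfold stage
        congr 2 <;> exact Set.image_congr fun γ hγ => by rw [hfg γ hγ]
      exact this ▸ H)
    (fun α f H => by
      have h1 : Good (stage P f (Set.Iio α)) := good_of_stages hP H
      have : Small.{0} (stage P f (Set.Iio α)) := by unfold stage; infer_instance
      obtain ⟨w, hw⟩ := h1.extend α
      have sub : ∀ u ∈ stage P (Function.update f α w) (Set.Iic α),
          u ∈ insert (w.2, α) (insert (α, w.1) (stage P f (Set.Iio α))) := by
        rintro u (h0 | ⟨γ, hγ, rfl⟩ | ⟨γ, hγ, rfl⟩)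
        · exact Or.inr (Or.inr (Or.inl h0))
        · rcases (show γ ≤ α from hγ).eq_or_lt with rfl | hγ
          · exact Or.inr (Or.inl (by simp))
          · exact Or.inr (Or.inr (Or.inr (Or.inl ⟨γ, hγ, by simp [hγ.ne]⟩)))
        · rcases (show γ ≤ α from hγ).eq_or_lt with rfl | hγ
          · exact Or.inl (by simp)
          · exact Or.inr (Or.inr (Or.inr (Or.inr ⟨γ, hγ, by simp [hγ.ne]⟩)))
      exact ⟨w, fun u hu v hv => hw u (sub u hu) v (sub v hv)⟩)
  have hg : Good (stage P f Set.univ) := good_of_stages hP fun γ _ => hf γ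
  have m1 : ∀ x, (x, (f x).1) ∈ stage P f Set.univ := fun x => Or.inr (Or.inl ⟨x, trivial, rfl⟩)
  have m2 : ∀ x, ((f x).2, x) ∈ stage P f Set.univ := fun x => Or.inr (Or.inr ⟨x, trivial, rfl⟩)
  refine ⟨⟨⟨fun x => (f x).1, fun x => (f x).2, fun x => ?_, fun x => ?_⟩, fun g => Empty.elim g,
    fun r x => ?_⟩, funext fun i => ?_⟩
  · exact ((hg _ (m2 _) _ (m1 x) 1).eq_iff le_rfl).2 rfl
  · exact ((hg _ (m1 _) _ (m2 x) 1).eq_iff le_rfl).1 rfl
  · cases r with
    | mk n r v =>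
      have := hg _ (m1 (x 0)) _ (m1 (x 1)) (n + 1) n (by omega)
      rw [relMap_mk, relMap_mk, this.1, this.2]
      rfl
  · exact ((hg _ (m1 (a i)) _ (Or.inl ⟨i, rfl⟩) 1).eq_iff le_rfl).1 rfl

theorem homogeneous : StronglyHomogeneous LL OO Cardinal.univ.{0, 1} := by
  intro I hI a b h
  have := small_of_lt hI
  exact exists_equiv (agree_of_formulas h)

end Pool.Agent.Lib.MP_e4697a_lc
end

-- part Pool.Agent.Lib.MP_e4697a_lc.Lascar
section

/-!
Lascar and Kim-Pillay strong types of single elements differ.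
-/

set_option autoImplicit false

namespace Pool.Agent.Lib.MP_e4697a_lc

open FirstOrder FirstOrder.Language

/-- pairs with the middle label shifted by `k` -/
def Mid (k : GG) (x y : OO) : Prop :=
  (∀ n, dd x y n = 4 + k n) ∧ ∀ n, gg x y n = Md (n + 1)

theorem mid_of_DD {x y : OO} {j : ℤ} {k : GG} (h : ∀ l, DD x y l = ee l + j * sc l)
    (hk : ∀ n, pp y n - pp x n + j = k n) : Mid k x y := by
  refine ⟨fun n => ?_, fun n => ?_⟩
  · rw [dd, h 0, ← hk n]; simp only [ee, sc]; push_cast; ring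
  · rw [gg, h, h, ee_succ, sc_succ]; ring

theorem Mid.Sm {k k' : GG} {x y x' y' : OO} (h : Mid k x y) (h' : Mid k' x' y') {m : ℕ}
    (hk : ∀ n < m, k n = k' n) : Sm m x y x' y' := fun n hn =>
  ⟨by rw [h.1, h'.1, hk n hn], by rw [h.2, h'.2]⟩

theorem Mid.ne {k : GG} {x y : OO} (h : Mid k x y) : x ≠ y := by
  rintro rfl
  have := h.2 0
  rw [gg_self] at this
  exact (Md_pos _).ne this

theorem Mid.DD_eq {k : GG} {x y : OO} (h : Mid k x y) (l : ℕ) :
    DD x y l = ee l + (DD x y 0 - 4) * sc l := by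
  induction l with
  | zero => simp [ee, sc]
  | succ l ih =>
    have := h.2 l
    rw [gg, ih] at this
    rw [ee_succ, sc_succ]; linarith

theorem Mid.rev {k : GG} {x y : OO} (h : Mid k x y) : Mid (-k) y x := by
  refine ⟨fun n => ?_, fun n => ?_⟩
  · rw [dd_rev h.ne, h.1, Pi.neg_apply]; ring
  · rw [gg_rev h.ne, h.2]; ring

theorem exists_mid (x : OO) (k : GG) : ∃ y, pp y = pp x + k ∧ Mid k x y := by
  obtain ⟨c, c1, c2, c3⟩ := ext_family (ι := Unit) (fun _ => x) (fun _ => ee) (fun _ => ee)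
    (fun _ => Lk_ee) (fun _ => Lk_ee) (fun _ _ l => by rw [DD_valid.diag, CC]; omega) (pp x + k)
  refine ⟨c, c2, mid_of_DD (j := 0) (fun l => ?_) fun n => by simp [c2]⟩
  simpa using DD_valid.eq_of_le (c1 ()) (c3 () l).1 (c3 () l).2 (by rw [CC]; omega)

theorem two_step {x y : OO} (hxy : x ≠ y) {j k : ℤ} (hj : ∀ n, pp y n - pp x n = j)
    (h1 : ∀ l, k * sc l ≤ DD x y l + j * sc l)
    (h2 : ∀ l, DD x y l + j * sc l ≤ CC l + k * sc l) : ∃ z, Mid k x z ∧ Mid 0 z y := by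
  obtain ⟨c, c1, c2, c3⟩ := ext_family (ι := Bool) (fun t => cond t y x)
    (fun t l => ee l + cond t j k * sc l) (fun t l => ee l + -cond t j k * sc l)
    (fun _ => Lk_ee.gauge _) (fun _ => Lk_ee.gauge _)
    (fun s t l => by
      have := h1 l
      have := h2 l
      have := DD_valid.eq x y hxy l
      cases s <;> cases t <;> simp only [cond, DD_valid.diag, CC] at * <;> linarith) (pp x)
  refine ⟨c, mid_of_DD (j := k) (fun l => ?_) fun n => by simp [c2],
    mid_of_DD (j := -j) (fun l => ?_) fun n => by simp [c2, hj]⟩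
  · exact DD_valid.eq_of_le (c1 false) (c3 false l).1 (c3 false l).2
      (by simp only [CC, cond]; linarith)
  · exact DD_valid.eq_of_le (c1 true).symm (c3 true l).2 (c3 true l).1
      (by simp only [CC, cond]; linarith)

theorem DD_lower {x y : OO} (l : ℕ) : (DD x y 0 - 4) * sc l + 4 ≤ DD x y l := by
  induction l with
  | zero => simp [sc]
  | succ l ih =>
    have h1 := (gg_mem x y l).2
    have h2 := Md_succ l
    have h3 := Md_pos l
    rw [gg] at h1
    rw [sc_succ]; nlinarith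

/-- potentials differ by an integer -/
def ZZ (x y : OO) : Prop := ∃ k : ℤ, ∀ n, pp y n - pp x n = k

theorem ZZ_iff {x y : OO} : ZZ x y ↔ ∃ k : ℤ, ∀ n, dd x y n = k := by
  constructor
  · rintro ⟨k, hk⟩
    exact ⟨DD x y 0 + k, fun n => by rw [dd]; push_cast; linear_combination hk n⟩
  · rintro ⟨k, hk⟩
    exact ⟨k - DD x y 0, fun n => by have := hk n; rw [dd] at this; push_cast
                                     linear_combination this⟩

/-- tuples of length one -/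
abbrev II : Type 1 := PUnit

/-- the Lascar relation on single elements -/
def EL : Setoid (II → OO) where
  r a b := ZZ (a ⟨⟩) (b ⟨⟩)
  iseqv := ⟨fun _ => ⟨0, fun n => by simp⟩,
    fun ⟨k, hk⟩ => ⟨-k, fun n => by push_cast; linear_combination -hk n⟩,
    fun ⟨k, hk⟩ ⟨k', hk'⟩ => ⟨k + k', fun n => by push_cast; linear_combination hk n + hk' n⟩⟩

theorem EL_inv : Invariant LL OO EL := by
  intro σ a b h
  obtain ⟨k, hk⟩ := ZZ_iff.1 h
  exact ZZ_iff.2 ⟨k, fun n => by
    rw [← hk n]; exact ((Sm_equiv σ (n + 1) _ _) n (by omega)).1.symm⟩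

theorem EL_bdd : Bounded OO Cardinal.univ.{0, 1} EL := by
  choose pt h1 _ using fun g : GG => exists_mid 0 (g - pp 0)
  have : Small.{0} (Quotient EL) := small_of_surjective
    (f := fun g : GG => Quotient.mk EL fun _ => pt g) (by
      rintro ⟨a⟩
      exact ⟨pp (a ⟨⟩), Quotient.sound ⟨0, fun n => by simp [h1]⟩⟩)
  exact lt_of_small _

theorem exists_mid_rel {F : Setoid (II → OO)} (hb : Bounded OO Cardinal.univ.{0, 1} F) :
    ∃ x y, Mid 0 x y ∧ F (fun _ => x) (fun _ => y) := by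
  obtain ⟨m, hm⟩ := zorn_subset
    {s : Set OO | s.Pairwise (fun x y => DD x y = ee) ∧ ∀ x ∈ s, pp x = 0} (fun c hc hch =>
      ⟨⋃₀ c, ⟨(Set.pairwise_sUnion hch.directedOn).2 fun s hs => (hc hs).1,
        fun x ⟨s, hs, hx⟩ => (hc hs).2 x hx⟩, fun s hs => Set.subset_sUnion_of_mem hs⟩)
  by_contra hc
  push Not at hc
  have h1 := small_of_lt hb
  have h2 : Small.{0} m := small_of_injective
    (f := fun x : m => Quotient.mk F fun _ => x.1) (by
      intro x y hxy
      by_contra hne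
      refine hc x y (mid_of_DD (j := 0) (fun l => ?_) fun n => ?_) (Quotient.exact hxy)
      · rw [hm.prop.1 x.2 y.2 fun e => hne (Subtype.ext e)]; simp
      · simp [hm.prop.2 _ x.2, hm.prop.2 _ y.2])
  obtain ⟨c, c1, c2, c3⟩ := ext_family (Subtype.val : m → OO) (fun _ => ee) (fun _ => ee)
    (fun _ => Lk_ee) (fun _ => Lk_ee) (fun i j l => by
      have := ee_pos l
      by_cases e : j.1 = i.1
      · rw [e, DD_valid.diag, CC]; omega
      · rw [hm.prop.1 j.2 i.2 e, CC]; omega) 0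
  have h3 : ∀ x ∈ m, DD x c = ee ∧ DD c x = ee := fun x hx =>
    ⟨funext fun l => DD_valid.eq_of_le (c1 ⟨x, hx⟩) (c3 ⟨x, hx⟩ l).1 (c3 ⟨x, hx⟩ l).2
        (by rw [CC]; omega),
      funext fun l => DD_valid.eq_of_le (c1 ⟨x, hx⟩).symm (c3 ⟨x, hx⟩ l).2 (c3 ⟨x, hx⟩ l).1
        (by rw [CC]; omega)⟩
  have h4 := hm.le_of_ge (y := insert c m) ⟨?_, ?_⟩ (Set.subset_insert _ _)
  · exact c1 ⟨c, h4 (Set.mem_insert _ _)⟩ rfl
  · exact hm.prop.1.insert fun x hx _ => ⟨(h3 x hx).2, (h3 x hx).1⟩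
  · rintro x (rfl | hx)
    · exact c2
    · exact hm.prop.2 x hx

theorem EL_le {F : Setoid (II → OO)} (hi : Invariant LL OO F)
    (hb : Bounded OO Cardinal.univ.{0, 1} F) : EL ≤ F := by
  have s0 : ∀ x y, Mid 0 x y → F (fun _ => x) (fun _ => y) := by
    obtain ⟨x0, y0, h0, hF⟩ := exists_mid_rel hb
    intro x y h
    have hs : ∀ m, Sm m x0 y0 x y := fun m => h0.Sm h fun _ _ => rfl
    obtain ⟨σ, hσ⟩ := exists_equiv (ι := Bool) (a := fun t => cond t y0 x0)
      (b := fun t => cond t y x) (fun m s t => by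
        cases s <;> cases t
        · exact Sm.diag _ _ _
        · exact hs m
        · exact (hs m).rev
        · exact Sm.diag _ _ _)
    have e1 : σ x0 = x := congrFun hσ false
    have e2 : σ y0 = y := congrFun hσ true
    rw [← e1, ← e2]
    exact hi σ _ _ hF
  have s1 : ∀ k : ℕ, ∀ x y, Mid ((k : ℤ) : GG) x y → F (fun _ => x) (fun _ => y) := by
    intro k
    induction k with
    | zero => intro x y h; exact s0 x y (by simpa using h)
    | succ k ih =>
      intro x y h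
      obtain ⟨z, h1, h2⟩ := two_step h.ne (j := 4 + (k + 1) - DD x y 0) (k := k)
        (fun n => by
          have := h.1 n
          rw [dd] at this
          simp only [Pi.intCast_apply] at this
          push_cast at this ⊢
          linear_combination this)
        (fun l => by
          have := ee_pos l
          have := sc_pos l
          rw [h.DD_eq l]; linarith)
        (fun l => by
          have := ee_ge l
          have := sc_pos l
          rw [h.DD_eq l, CC]; linarith)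
      exact F.trans' (ih x z h1) (s0 z y h2)
  have s2 : ∀ k : ℤ, ∀ x y, Mid (k : GG) x y → F (fun _ => x) (fun _ => y) := by
    intro k x y h
    obtain ⟨n, rfl | rfl⟩ := k.eq_nat_or_neg
    · exact s1 n x y h
    · exact F.symm' (s1 n y x (by simpa using h.rev))
  intro a b h
  obtain ⟨j, hj⟩ := h
  change F (fun _ => a ⟨⟩) (fun _ => b ⟨⟩)
  by_cases hab : a ⟨⟩ = b ⟨⟩
  · rw [hab]
  obtain ⟨z, h1, h2⟩ := two_step hab (k := DD (a ⟨⟩) (b ⟨⟩) 0 + j - 4) hj
    (fun l => by have := DD_lower (x := a ⟨⟩) (y := b ⟨⟩) l; linarith)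
    (fun l => by
      have h3 := DD_lower (x := b ⟨⟩) (y := a ⟨⟩) l
      have h4 := DD_valid.eq _ _ hab l
      have h5 := DD_valid.eq _ _ hab 0
      rw [CC_zero] at h5
      rw [show DD (b ⟨⟩) (a ⟨⟩) 0 = 8 - DD (a ⟨⟩) (b ⟨⟩) 0 by omega] at h3
      linarith)
  exact F.trans' (s2 _ _ _ h1) (s0 _ _ h2)

theorem isLascar : IsLascar LL OO Cardinal.univ.{0, 1} EL :=
  ⟨⟨EL_inv, EL_bdd⟩, fun _ h => EL_le h.1 h.2⟩

theorem inv_of_td {F : Setoid (II → OO)} (h : TypeDefinable LL OO F) : Invariant LL OO F := by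
  obtain ⟨p, hp⟩ := h
  intro σ a b hab
  refine (hp _ _).2 fun φ hφ => ?_
  have := (hp _ _).1 hab φ hφ
  rw [← StrongHomClass.realize_formula σ φ, Sum.comp_elim] at this
  exact this

/-- the Kim-Pillay relation on single elements -/
def EKP : Setoid (II → OO) :=
  sInf {F : Setoid (II → OO) | TypeDefinable LL OO F ∧ Bounded OO Cardinal.univ.{0, 1} F}

theorem EKP_iff (a b : II → OO) : EKP a b ↔ ∀ F : Setoid (II → OO),
    TypeDefinable LL OO F ∧ Bounded OO Cardinal.univ.{0, 1} F → F a b := Iff.rfl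

theorem isKP : IsKimPillay LL OO Cardinal.univ.{0, 1} EKP := by
  refine ⟨⟨?_, ?_⟩, fun _ h => sInf_le h⟩
  · refine ⟨{φ | ∀ a b, EKP a b → φ.Realize (Sum.elim a b)}, fun a b =>
      ⟨fun h φ hφ => hφ a b h, fun h => (EKP_iff a b).2 fun F hF => ?_⟩⟩
    obtain ⟨p, hp⟩ := hF.1
    exact (hp a b).2 fun φ hφ => h φ fun a' b' h' => (hp a' b').1 ((EKP_iff _ _).1 h' F hF) φ hφ
  · have h1 : EL ≤ EKP := le_sInf fun F hF => EL_le (inv_of_td hF.1) hF.2
    have := small_of_lt EL_bdd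
    have : Small.{0} (Quotient EKP) := small_of_surjective
      (f := (Quotient.map' id fun _ _ h => h1 h : Quotient EL → Quotient EKP)) (by
        rintro ⟨a⟩; exact ⟨Quotient.mk _ a, rfl⟩)
    exact lt_of_small _

/-- partial sums of the powers of four -/
def ks (n : ℕ) : ℤ := ∑ i ∈ Finset.range n, 4 ^ i

theorem ks_eq (n : ℕ) : 3 * ks n + 1 = 4 ^ n := by
  induction n with
  | zero => simp [ks]
  | succ n ih => rw [ks, Finset.sum_range_succ, ← ks, pow_succ]; linarith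

theorem four_pow {n m : ℕ} (h : n ≤ m) : (4 : ZMod (2 ^ n)) ^ m = 0 := by
  have h1 : ((2 ^ n : ℕ) : ZMod (2 ^ n)) = 0 := ZMod.natCast_self _
  obtain ⟨d, rfl⟩ := Nat.exists_eq_add_of_le h
  push_cast at h1
  rw [show (4 : ZMod (2 ^ n)) = 2 * 2 by norm_num, mul_pow, pow_add, h1]; simp

theorem ks_congr {n m : ℕ} (h : n ≤ m) : (ks m : ZMod (2 ^ n)) = ks n := by
  induction m, h using Nat.le_induction with
  | base => rfl
  | succ m h ih =>
    rw [ks, Finset.sum_range_succ, ← ks]; push_cast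
    rw [ih, four_pow h, add_zero]

theorem EL_ne_EKP : EL ≠ EKP := by
  intro e
  obtain ⟨y, h1, h2⟩ := exists_mid 0 (fun n => (ks n : ZMod (2 ^ n)))
  have h3 : EKP (fun _ => 0) (fun _ => y) := (EKP_iff _ _).2 fun F hF => by
    obtain ⟨p, hp⟩ := hF.1
    refine (hp _ _).2 fun φ hφ => ?_
    obtain ⟨m, s, hq⟩ := qe φ
    obtain ⟨y', h4, h5⟩ := exists_mid 0 ((ks m : ℤ) : GG)
    have h6 : EL (fun _ => 0) (fun _ => y') := ⟨ks m, fun n => by simp [h4]⟩
    have h7 : Sm m 0 y' 0 y := h5.Sm h2 fun n hn => ks_congr hn.le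
    refine (hq _ _ ?_).1 ((hp _ _).1 (EL_le (inv_of_td hF.1) hF.2 h6) φ hφ)
    rintro (i | i) - (j | j) -
    · exact Sm.diag _ _ _
    · exact h7
    · exact h7.rev
    · exact Sm.diag _ _ _
  rw [← e] at h3
  obtain ⟨k, hk⟩ := h3
  have h4 : ∀ n, ((2 ^ n : ℕ) : ℤ) ∣ 3 * k + 1 := fun n => by
    rw [← ZMod.intCast_zmod_eq_zero_iff_dvd]
    have h5 := hk n
    have h6 := congrArg (Int.cast : ℤ → ZMod (2 ^ n)) (ks_eq n)
    simp only [h1, Pi.add_apply, add_sub_cancel_left] at h5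
    push_cast at h6 ⊢
    rw [← h5, h6, four_pow le_rfl]
  have h5 := Int.le_of_dvd (abs_pos.2 (show 3 * k + 1 ≠ 0 by omega))
    ((dvd_abs _ _).2 (h4 (3 * k + 1).natAbs))
  have h6 := Nat.lt_two_pow_self (n := (3 * k + 1).natAbs)
  rw [Int.abs_eq_natAbs] at h5
  omega

theorem not_gcompact : ¬ GCompact LL OO Cardinal.univ.{0, 1} := fun h =>
  EL_ne_EKP (h II (lt_of_small _) EL EKP isLascar isKP)

end Pool.Agent.Lib.MP_e4697a_lc
end

-- part Pool.Agent.Lib.MP_e4697a_lc.Cycle1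
section

/-!
Single-level lemmas for closing a homogeneous sequence to a cycle.
-/

set_option autoImplicit false

namespace Pool.Agent.Lib.MP_e4697a_lc

theorem exists_rank (S : Finset ℤ) : ∃ ρ : ℤ → ℤ, ρ 0 = 0 ∧ (∀ x, 1 ≤ x → 1 ≤ ρ x) ∧
    (∀ x, 0 ≤ ρ x ∧ ρ x ≤ 2 ^ S.card) ∧
    ∀ x ∈ S, ∀ y ∈ S, ∀ z, 0 ≤ x → 0 ≤ y → x + y ≤ z → ρ x + ρ y ≤ ρ z := by
  classical
  let c : ℤ → ℕ := fun x => (S.filter (· < x)).card
  have cm : ∀ x z, x ≤ z → c x ≤ c z := fun x z h =>
    Finset.card_le_card fun w hw => by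
      simp only [Finset.mem_filter] at hw ⊢; exact ⟨hw.1, by omega⟩
  have cs : ∀ x ∈ S, ∀ z, x < z → c x + 1 ≤ c z := fun x hx z h =>
    Finset.card_lt_card ⟨fun w hw => by
      simp only [Finset.mem_filter] at hw ⊢; exact ⟨hw.1, by omega⟩, fun hh => by
      have := hh (Finset.mem_filter.2 ⟨hx, h⟩)
      simp at this⟩
  have pm : ∀ {a b : ℕ}, a ≤ b → (2 : ℤ) ^ a ≤ 2 ^ b := fun h => pow_le_pow_right₀ (by norm_num) h
  refine ⟨fun x => if x ≤ 0 then 0 else 2 ^ c x, by simp, fun x hx => ?_, fun x => ?_,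
    fun x hx y hy z h1 h2 h3 => ?_⟩
  · simp only [if_neg (show ¬ x ≤ 0 by omega)]; exact one_le_pow₀ (by norm_num)
  · simp only
    split_ifs
    · exact ⟨le_rfl, by positivity⟩
    · exact ⟨by positivity, pm (Finset.card_filter_le _ _)⟩
  · simp only
    by_cases hx0 : x ≤ 0 <;> by_cases hy0 : y ≤ 0
    · rw [if_pos hx0, if_pos hy0]; split_ifs <;> positivity
    · rw [if_pos hx0, if_neg hy0, if_neg (by omega), zero_add]; exact pm (cm _ _ (by omega))
    · rw [if_neg hx0, if_pos hy0, if_neg (by omega), add_zero]; exact pm (cm _ _ (by omega))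
    · rw [if_neg hx0, if_neg hy0, if_neg (by omega)]
      have a1 := pm (cs x hx z (by omega))
      have a2 := pm (cs y hy z (by omega))
      rw [pow_succ] at a1 a2
      omega

theorem CC_decay {n l : ℕ} (h : n + 1 ≤ l) : sc n * CC l ≤ sc l * (CC n - 2) := by
  induction l, h using Nat.le_induction with
  | base => rw [CC_succ, sc_succ]; nlinarith
  | succ l h ih =>
    rw [CC_succ, sc_succ]
    have := Md_pos (l + 1)
    have := sc_pos n
    nlinarith [mul_le_mul_of_nonneg_left ih (Md_pos (l + 1)).le, mul_pos this (Md_pos (l + 1))]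

theorem Lk.decay {u : ℕ → ℤ} (hu : Lk u) {l n : ℕ} (h : l ≤ n) : sc l * u n ≤ sc n * u l := by
  induction n, h using Nat.le_induction with
  | base => exact le_rfl
  | succ n h ih =>
    have h1 := hu n
    have h2 := FF_lt n (u n)
    have h3 := sc_pos l
    have h4 := mul_le_mul_of_nonneg_left ih (Md_pos (n + 1)).le
    rw [sc_succ]; nlinarith

theorem tail_slow {m n l : ℕ} (u : ℕ → ℤ) {Λ : ℤ} (hΛ : 0 < Λ) (hmn : m ≤ n) (hl : n ≤ l)
    (hn : Λ * Md m + 1 ≤ Md (n + 1)) :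
    sc l * (Λ * tail m u n - 1) + sc n ≤ Λ * sc n * tail m u l := by
  induction l, hl using Nat.le_induction with
  | base => nlinarith
  | succ l hl ih =>
    have h1 := df_tail u (hmn.trans hl)
    have h2 := Md_mono (show n + 1 ≤ l + 1 by omega)
    have h3 := sc_pos n
    have h4 := mul_le_mul_of_nonneg_left ih (Md_pos (l + 1)).le
    have h5 := mul_le_mul_of_nonneg_left h1 (mul_pos hΛ h3).le
    have h6 := mul_le_mul_of_nonneg_left (hn.trans h2) h3.le
    rw [tail_succ u (hmn.trans hl), FF, sc_succ]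
    nlinarith

theorem tail_congr {m : ℕ} {u v : ℕ → ℤ} (h : ∀ l ≤ m, u l = v l) : tail m u = tail m v := by
  funext l
  induction l with
  | zero => exact h 0 (by omega)
  | succ l ih =>
    by_cases hl : l < m
    · rw [tail_of_le u (by omega), tail_of_le v (by omega), h _ (by omega)]
    · rw [tail_succ u (by omega), tail_succ v (by omega), ih]

/-- identified points of the line -/
def Eqv {R : Type*} (cst : R → Prop) (δ : ℤ) (r s : R) : Prop := r = s ∧ (δ = 0 ∨ cst r)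

theorem level_cycle {R : Type*} (o : R) (cst : R → Prop) (ho : cst o) (k : ℕ) (C : ℤ)
    (E Φ : ℤ → R → R → ℤ)
    (e1 : ∀ δ ε r s t, E (δ + ε) r t ≤ E δ r s + E ε s t)
    (e3 : ∀ δ r s, ¬ Eqv cst δ r s → C ≤ E δ r s + E (-δ) s r)
    (e4 : ∀ δ r s, cst r ∨ cst s → E δ r s = E 0 r s)
    (p1 : ∀ δ ε r s t, Φ (δ + ε) r t ≤ Φ δ r s + Φ ε s t)
    (p2 : ∀ δ r s, E δ r s ≤ Φ δ r s)
    (p3 : ∀ δ ε r s, δ + ε ≠ 0 → (k : ℤ) ∣ δ + ε → C ≤ Φ δ r s + Φ ε s r)
    (p4 : ∀ r, Φ 0 r r = 0) :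
    ∃ Q : ZMod k × R → ZMod k × R → ℤ, (∀ u, Q u u = 0) ∧ (∀ u v w, Q u w ≤ Q u v + Q v w) ∧
      (∀ u v, ¬ (u.2 = v.2 ∧ (u.1 = v.1 ∨ cst u.2)) → C ≤ Q u v + Q v u) ∧
      (∀ u v (δ : ℤ), (δ : ZMod k) = v.1 - u.1 → Q u v ≤ Φ δ u.2 v.2) ∧
      ∀ u v c, cst c → Q u v ≤ E 0 u.2 c + E 0 c v.2 := by
  have a1 : ∀ δ r s c, cst c → E 0 c s ≤ E 0 c r + E δ r s := fun δ r s c hc => by
    have := e1 0 δ c r s
    rwa [zero_add, e4 δ c s (Or.inl hc)] at this
  have a2 : ∀ δ r s c, cst c → E 0 r c ≤ E δ r s + E 0 s c := fun δ r s c hc => by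
    have := e1 δ 0 r s c
    rwa [add_zero, e4 δ r c (Or.inr hc)] at this
  have a3 : ∀ δ r s c, cst c → E δ r s ≤ E 0 r c + E 0 c s := fun δ r s c hc => by
    have := e1 δ 0 r c s
    rwa [add_zero, e4 δ r c (Or.inr hc)] at this
  have h : ∀ u v : ZMod k × R, ∃ q : ℤ,
      ((∃ δ : ℤ, (δ : ZMod k) = v.1 - u.1 ∧ Φ δ u.2 v.2 = q) ∨
        ∃ c, cst c ∧ E 0 u.2 c + E 0 c v.2 = q) ∧
      ∀ w : ℤ, ((∃ δ : ℤ, (δ : ZMod k) = v.1 - u.1 ∧ Φ δ u.2 v.2 = w) ∨
        ∃ c, cst c ∧ E 0 u.2 c + E 0 c v.2 = w) → q ≤ w := by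
    intro u v
    refine Int.exists_least_of_bdd ⟨E 0 o v.2 - E 0 o u.2, ?_⟩ ⟨_, Or.inr ⟨o, ho, rfl⟩⟩
    rintro w (⟨δ, -, rfl⟩ | ⟨c, hc, rfl⟩)
    · have := a1 δ u.2 v.2 o ho
      have := p2 δ u.2 v.2
      omega
    · have := a1 0 u.2 v.2 o ho
      have := a3 0 u.2 v.2 c hc
      omega
  choose Q Q1 Q2 using h
  have q1 : ∀ u v (δ : ℤ), (δ : ZMod k) = v.1 - u.1 → Q u v ≤ Φ δ u.2 v.2 :=
    fun u v δ hδ => Q2 u v _ (Or.inl ⟨δ, hδ, rfl⟩)
  have q2 : ∀ u v c, cst c → Q u v ≤ E 0 u.2 c + E 0 c v.2 :=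
    fun u v c hc => Q2 u v _ (Or.inr ⟨c, hc, rfl⟩)
  have tri : ∀ u v w, Q u w ≤ Q u v + Q v w := by
    intro u v w
    rcases Q1 u v with ⟨δ, hδ, b1⟩ | ⟨c, hc, b1⟩ <;> rcases Q1 v w with ⟨ε, hε, b2⟩ | ⟨c', hc', b2⟩
    · have := q1 u w (δ + ε) (by push_cast; rw [hδ, hε]; ring)
      have := p1 δ ε u.2 v.2 w.2
      omega
    · have := q2 u w c' hc'
      have := a2 δ u.2 v.2 c' hc'
      have := p2 δ u.2 v.2
      omega
    · have := q2 u w c hc
      have := a1 ε v.2 w.2 c hc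
      have := p2 ε v.2 w.2
      omega
    · have := q2 u w c hc
      have := a1 0 v.2 w.2 c hc
      have := a3 0 v.2 w.2 c' hc'
      omega
  refine ⟨Q, fun u => ?_, tri, fun u v huv => ?_, q1, q2⟩
  · have := q1 u u 0 (by simp)
    have := tri u u u
    have := p4 u.2
    omega
  · have ne : ∀ δ : ℤ, (δ : ZMod k) = v.1 - u.1 → ¬ Eqv cst δ u.2 v.2 := by
      rintro δ hδ ⟨h1, rfl | h2⟩
      · exact huv ⟨h1, Or.inl (by rw [Int.cast_zero, eq_comm, sub_eq_zero] at hδ; exact hδ.symm)⟩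
      · exact huv ⟨h1, Or.inr h2⟩
    rcases Q1 u v with ⟨δ, hδ, b1⟩ | ⟨c, hc, b1⟩ <;> rcases Q1 v u with ⟨ε, hε, b2⟩ | ⟨c', hc', b2⟩
    · by_cases h0 : δ + ε = 0
      · obtain rfl : ε = -δ := by omega
        have := e3 δ _ _ (ne δ hδ)
        have := p2 δ u.2 v.2
        have := p2 (-δ) v.2 u.2
        omega
      · have := p3 δ ε u.2 v.2 h0 ((ZMod.intCast_zmod_eq_zero_iff_dvd _ _).1
          (by push_cast; rw [hδ, hε]; ring))
        omega
    · have := e3 δ _ _ (ne δ hδ)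
      have := p2 δ u.2 v.2
      have := a3 (-δ) v.2 u.2 c' hc'
      omega
    · have := e3 (-ε) _ _ (ne (-ε) (by push_cast; rw [hε]; ring))
      have := p2 ε v.2 u.2
      have := a3 (-ε) u.2 v.2 c hc
      rw [neg_neg] at *
      omega
    · obtain ⟨δ, hδ⟩ := ZMod.intCast_surjective (v.1 - u.1)
      have := e3 δ _ _ (ne δ hδ)
      have := a3 δ u.2 v.2 c hc
      have := a3 (-δ) v.2 u.2 c' hc'
      omega

end Pool.Agent.Lib.MP_e4697a_lc
end

-- part Pool.Agent.Lib.MP_e4697a_lc.Cycle2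
section

/-!
Closing a homogeneous sequence to a cycle.
-/

set_option autoImplicit false

namespace Pool.Agent.Lib.MP_e4697a_lc

/-- labels of a sequence of tuples that is homogeneous up to level `N` -/
structure Line {R : Type*} (cst : R → Prop) (N : ℕ) (T : ℤ → R → R → ℕ → ℤ) : Prop where
  sgn : ∀ δ r s, T δ r s = T δ.sign r s
  tri : ∀ δ ε r s t, ∀ l ≤ N, T (δ + ε) r t l ≤ T δ r s l + T ε s t l
  zero : ∀ δ r s, Eqv cst δ r s → ∀ l, T δ r s l = 0
  eq : ∀ δ r s, ¬ Eqv cst δ r s → ∀ l, T δ r s l + T (-δ) s r l = CC l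
  link : ∀ δ r s, ¬ Eqv cst δ r s → Lk (T δ r s)
  cs : ∀ δ r s, cst r ∨ cst s → ∀ l ≤ N, T δ r s l = T 0 r s l

variable {R : Type*} {cst : R → Prop} {T : ℤ → R → R → ℕ → ℤ}

/-- the multiplier -/
def Lam (R : Type*) [Fintype R] : ℤ := 2 ^ (3 * Fintype.card R ^ 2 + 1)

theorem Lam_pos (R : Type*) [Fintype R] : 0 < Lam R := by unfold Lam; positivity

theorem Line.psi [Fintype R] {n : ℕ} (h : Line cst (n + 1) T) : ∃ Ψ : ℤ → R → R → ℤ,
    (∀ δ ε r s t, Ψ (δ + ε) r t ≤ Ψ δ r s + Ψ ε s t) ∧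
    (∀ δ r s, Eqv cst δ r s → Ψ δ r s = 0) ∧
    (∀ δ r s, cst r ∨ cst s → Ψ δ r s = Ψ 0 r s) ∧
    (∀ δ r s, ¬ Eqv cst δ r s → Ψ δ r s + 1 ≤ Lam R * T δ r s n) ∧
    ∀ δ r s, 2 * (Lam R * T δ r s n) ≤ 2 * Ψ δ r s + Lam R := by
  classical
  let g : ℤ → R → R → ℤ := fun δ r s => Md (n + 1) * T δ r s n - T δ r s (n + 1)
  let S : Finset ℤ := (({-1, 0, 1} : Finset ℤ) ×ˢ (Finset.univ : Finset (R × R))).image
    fun x => g x.1 x.2.1 x.2.2
  have hS : ∀ δ r s, g δ r s ∈ S := fun δ r s =>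
    Finset.mem_image.2 ⟨(δ.sign, r, s), by
      rcases lt_trichotomy δ 0 with a | a | a
      · simp [Int.sign_eq_neg_one_of_neg a]
      · simp [a]
      · simp [Int.sign_eq_one_of_pos a], by simp only [g]; rw [← h.sgn]⟩
  have hc : S.card ≤ 3 * Fintype.card R ^ 2 := by
    refine Finset.card_image_le.trans ?_
    rw [Finset.card_product, Finset.card_univ, Fintype.card_prod, sq]
    exact Nat.mul_le_mul_right _ (by decide)
  have g0 : ∀ δ r s, Eqv cst δ r s → g δ r s = 0 := fun δ r s e => by simp [g, h.zero δ r s e]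
  have g1 : ∀ δ r s, ¬ Eqv cst δ r s → 1 ≤ g δ r s := fun δ r s e => by
    have := h.link δ r s e n
    have := FF_lt n (T δ r s n)
    simp only [g]; omega
  have g2 : ∀ δ r s, 0 ≤ g δ r s := fun δ r s => by
    by_cases e : Eqv cst δ r s
    · exact (g0 δ r s e).ge
    · have := g1 δ r s e; omega
  obtain ⟨ρ, r0, r1, r2, r3⟩ := exists_rank S
  have r4 : ∀ x, 2 * ρ x ≤ Lam R := fun x => by
    have a : (2 : ℤ) ^ S.card ≤ 2 ^ (3 * Fintype.card R ^ 2) := pow_le_pow_right₀ (by norm_num) hc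
    have := (r2 x).2
    rw [Lam, pow_succ]; omega
  refine ⟨fun δ r s => Lam R * T δ r s n - ρ (g δ r s), fun δ ε r s t => ?_, fun δ r s e => ?_,
    fun δ r s e => ?_, fun δ r s e => ?_, fun δ r s => ?_⟩
  · simp only
    rcases (h.tri δ ε r s t n (by omega)).eq_or_lt with e | e
    · have := r3 _ (hS δ r s) _ (hS ε s t) (g (δ + ε) r t) (g2 _ _ _) (g2 _ _ _) (by
        have := h.tri δ ε r s t (n + 1) le_rfl
        simp only [g]; rw [e]; linarith)
      rw [e]; linarith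
    · have := r4 (g δ r s)
      have := r4 (g ε s t)
      have := (r2 (g (δ + ε) r t)).1
      have := mul_le_mul_of_nonneg_left (show T (δ + ε) r t n + 1 ≤ T δ r s n + T ε s t n from e)
        (Lam_pos R).le
      linarith
  · simp only; rw [g0 δ r s e, r0, h.zero δ r s e]; simp
  · simp only [g]; rw [h.cs δ r s e n (by omega), h.cs δ r s e (n + 1) le_rfl]
  · have := r1 _ (g1 δ r s e); simp only; omega
  · have := r4 (g δ r s); simp only; omega

open Classical in
/-- relaxed upper bounds -/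
noncomputable def hb (cst : R → Prop) (m : ℕ) (T : ℤ → R → R → ℕ → ℤ) (δ : ℤ) (r s : R) (l : ℕ) :
    ℤ := if Eqv cst δ r s then 0 else tail m (T δ r s) l

theorem Line.level [Fintype R] {m n : ℕ} (h : Line cst (n + 1) T) (o : R) (ho : cst o)
    (hmn : m ≤ n) (hn : 2 * Lam R * Md m + 1 ≤ Md (n + 1)) (k : ℕ)
    (hk : 8 * (2 * Lam R * sc n) ≤ k) (l : ℕ) :
    ∃ Q : ZMod k × R → ZMod k × R → ℤ, (∀ u, Q u u = 0) ∧ (∀ u v w, Q u w ≤ Q u v + Q v w) ∧
      (∀ u v, ¬ (u.2 = v.2 ∧ (u.1 = v.1 ∨ cst u.2)) → 2 * Lam R * sc n * CC l ≤ Q u v + Q v u) ∧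
      (∀ u v (δ : ℤ), |δ| ≤ 1 → (δ : ZMod k) = v.1 - u.1 → ¬ Eqv cst δ u.2 v.2 →
        Q u v ≤ 2 * Lam R * sc n * tail m (T δ u.2 v.2) l) ∧
      ∀ u v c, cst c → Q u v ≤ 2 * Lam R * sc n * (hb cst m T 0 u.2 c l + hb cst m T 0 c v.2 l) := by
  obtain ⟨Ψ, s1, s2, s3, s4, s5⟩ := h.psi
  have hL := Lam_pos R
  have hn0 := sc_pos n
  have hl0 := sc_pos l
  have hΘ : 0 < 2 * Lam R * sc n := by positivity
  have up : ∀ δ r s, ¬ Eqv cst δ r s →
      sc l * (2 * Ψ δ r s + 1) ≤ 2 * Lam R * sc n * tail m (T δ r s) l := by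
    intro δ r s e
    have a1 := s4 δ r s e
    have lt : ∀ j, T δ r s j ≤ tail m (T δ r s) j := fun j =>
      le_tail (N := j) (fun i _ => h.link δ r s e i) j le_rfl
    have a2 : sc l * (2 * Ψ δ r s + 1) ≤ sc l * (2 * Lam R * T δ r s n - 1) :=
      mul_le_mul_of_nonneg_left (by linarith) hl0.le
    rcases le_total l n with hl | hl
    · have a3 := mul_le_mul_of_nonneg_left ((h.link δ r s e).decay hl) (by positivity : 0 ≤ 2 * Lam R)
      have a4 := mul_le_mul_of_nonneg_left (lt l) hΘ.le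
      nlinarith
    · have a3 := tail_slow (T δ r s) (by positivity : 0 < 2 * Lam R) hmn hl hn
      have a4 := mul_le_mul_of_nonneg_left (lt n) (by positivity : 0 ≤ sc l * (2 * Lam R))
      nlinarith
  obtain ⟨E, e1, e2, e3, e4, e5⟩ : ∃ E : ℤ → R → R → ℤ,
      (∀ δ ε r s t, E (δ + ε) r t ≤ E δ r s + E ε s t) ∧
      (∀ δ r s, Eqv cst δ r s → E δ r s = 0) ∧
      (∀ δ r s, ¬ Eqv cst δ r s → 2 * Lam R * sc n * CC l ≤ E δ r s + E (-δ) s r) ∧
      (∀ δ r s, cst r ∨ cst s → E δ r s = E 0 r s) ∧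
      ∀ δ r s, ¬ Eqv cst δ r s → E δ r s ≤ 2 * Lam R * sc n * tail m (T δ r s) l := by
    by_cases hl : l ≤ n
    · refine ⟨fun δ r s => 2 * Lam R * sc n * T δ r s l, fun δ ε r s t => ?_, fun δ r s e => ?_,
        fun δ r s e => ?_, fun δ r s e => ?_, fun δ r s e => ?_⟩
      · simp only [← mul_add]
        exact mul_le_mul_of_nonneg_left (h.tri δ ε r s t l (by omega)) hΘ.le
      · simp [h.zero δ r s e]
      · simp only [← mul_add, h.eq δ r s e, le_refl]
      · simp only [h.cs δ r s e l (by omega)]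
      · exact mul_le_mul_of_nonneg_left
          (le_tail (N := l) (fun i _ => h.link δ r s e i) l le_rfl) hΘ.le
    · refine ⟨fun δ r s => sc l * (2 * Ψ δ r s), fun δ ε r s t => ?_, fun δ r s e => ?_,
        fun δ r s e => ?_, fun δ r s e => ?_, fun δ r s e => ?_⟩
      · simp only [← mul_add]
        exact mul_le_mul_of_nonneg_left (by have := s1 δ ε r s t; omega) hl0.le
      · simp [s2 δ r s e]
      · have a1 := s5 δ r s
        have a2 := s5 (-δ) s r
        have a3 := h.eq δ r s e n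
        have a4 := mul_le_mul_of_nonneg_left (CC_decay (show n + 1 ≤ l by omega))
          (by positivity : 0 ≤ 2 * Lam R)
        have a5 : 2 * Lam R * (CC n - 2) ≤ 2 * Ψ δ r s + 2 * Ψ (-δ) s r := by
          rw [← a3]; linarith
        have a6 := mul_le_mul_of_nonneg_left a5 hl0.le
        simp only
        linarith
      · simp only [s3 δ r s e]
      · have := up δ r s e
        simp only
        linarith
  obtain ⟨Q, q1, q2, q3, q4, q5⟩ := level_cycle o cst ho k (2 * Lam R * sc n * CC l) E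
    (fun δ r s => max (E δ r s) (sc l * (2 * Ψ δ r s + |δ|))) e1 e3 e4
    (fun δ ε r s t => max_le ((e1 δ ε r s t).trans (add_le_add (le_max_left _ _) (le_max_left _ _)))
      (le_trans (by
        rw [← mul_add]
        refine mul_le_mul_of_nonneg_left ?_ hl0.le
        have := s1 δ ε r s t
        have := abs_add_le δ ε
        omega) (add_le_add (le_max_right _ _) (le_max_right _ _))))
    (fun _ _ _ => le_max_left _ _)
    (fun δ ε r s h0 hd => le_trans (by
        rw [← mul_add]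
        have a1 := s1 0 δ o r s
        have a2 := s1 0 ε o s r
        rw [zero_add, s3 _ _ _ (Or.inl ho)] at a1 a2
        have a3 := Int.le_of_dvd (abs_pos.2 h0) ((dvd_abs _ _).2 hd)
        have a4 := abs_add_le δ ε
        have a5 : 8 * (2 * Lam R * sc n) ≤ 2 * Ψ δ r s + |δ| + (2 * Ψ ε s r + |ε|) := by omega
        have a6 := mul_le_mul_of_nonneg_left a5 hl0.le
        have a7 := mul_le_mul_of_nonneg_left (ee_le l) hΘ.le
        rw [CC]; linarith) (add_le_add (le_max_right _ _) (le_max_right _ _)))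
    (fun r => by simp [e2 0 r r ⟨rfl, Or.inl rfl⟩, s2 0 r r ⟨rfl, Or.inl rfl⟩])
  have e6 : ∀ r s, E 0 r s ≤ 2 * Lam R * sc n * hb cst m T 0 r s l := fun r s => by
    unfold hb
    split_ifs with e
    · simp [e2 0 r s e]
    · exact e5 0 r s e
  refine ⟨Q, q1, q2, q3, fun u v δ hδ hk e => (q4 u v δ hk).trans (max_le (e5 _ _ _ e) ?_),
    fun u v c hc => (q5 u v c hc).trans ?_⟩
  · exact le_trans (mul_le_mul_of_nonneg_left (by omega) hl0.le) (up δ _ _ e)
  · rw [mul_add]; exact add_le_add (e6 _ _) (e6 _ _)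

end Pool.Agent.Lib.MP_e4697a_lc
end

-- part Pool.Agent.Lib.MP_e4697a_lc.Cycle3
section

/-!
The cyclic structure.
-/

set_option autoImplicit false

namespace Pool.Agent.Lib.MP_e4697a_lc

variable {R : Type*} {cst : R → Prop} {T : ℤ → R → R → ℕ → ℤ}

/-- points of the cycle -/
def YY (cst : R → Prop) (k : ℕ) := {y : ZMod k × R // cst y.2 → y.1 = 0}

open Classical in
/-- coordinate `r` of tuple number `i` of the cycle -/
noncomputable def rep (cst : R → Prop) {k : ℕ} (i : ZMod k) (r : R) : YY cst k :=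
  ⟨(if cst r then 0 else i, r), fun h => if_pos h⟩

theorem Line.cycle [Fintype R] {m : ℕ} (h : Line cst (m + 3 * Fintype.card R ^ 2 + 2 + 1) T)
    (o : R) (ho : cst o) : ∃ k : ℕ, 3 ≤ k ∧ ∃ D : YY cst k → YY cst k → ℕ → ℤ, Valid D ∧
      ∀ (i : ZMod k) (δ : ℤ) (r s : R), |δ| ≤ 1 → ∀ l ≤ m,
        D (rep cst i r) (rep cst (i + δ) s) l = T δ r s l := by
  classical
  set n := m + 3 * Fintype.card R ^ 2 + 2 with hn
  obtain ⟨k, hk3, hk⟩ : ∃ k : ℕ, 3 ≤ k ∧ 8 * (2 * Lam R * sc n) ≤ k :=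
    ⟨(8 * (2 * Lam R * sc n)).toNat + 3, by omega, by omega⟩
  have hM : 2 * Lam R * Md m + 1 ≤ Md (n + 1) := by
    have e : Md n = 2 * Lam R * Md m := by rw [hn, Md, Md, Lam]; ring
    have := Md_pos n
    rw [Md_succ]; omega
  choose Q q1 q2 q3 q4 q5 using h.level o ho (show m ≤ n by omega) hM k hk
  have hΘ : 0 < 2 * Lam R * sc n := mul_pos (mul_pos two_pos (Lam_pos R)) (sc_pos n)
  let Near : ℤ → YY cst k → YY cst k → Prop := fun δ u v =>
    |δ| ≤ 1 ∧ (cst u.1.2 ∨ cst v.1.2 ∨ (δ : ZMod k) = v.1.1 - u.1.1)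
  let H : YY cst k → YY cst k → ℕ → ℤ := fun u v =>
    if hh : ∃ δ, Near δ u v then tail m (T hh.choose u.1.2 v.1.2)
    else fun l => tail m (T 0 u.1.2 o) l + tail m (T 0 o v.1.2) l
  have H1 : ∀ δ u v, Near δ u v → H u v = tail m (T δ u.1.2 v.1.2) := by
    intro δ u v hδ
    have hh : ∃ δ, Near δ u v := ⟨δ, hδ⟩
    simp only [H, dif_pos hh]
    have hc := hh.choose_spec
    by_cases c : cst u.1.2 ∨ cst v.1.2
    · exact tail_congr fun l hl => by rw [h.cs _ _ _ c l (by omega), h.cs δ _ _ c l (by omega)]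
    · have a1 : (δ : ZMod k) = v.1.1 - u.1.1 := by have := hδ.2; tauto
      have a2 : (hh.choose : ZMod k) = v.1.1 - u.1.1 := by have := hc.2; tauto
      have a3 := (ZMod.intCast_eq_intCast_iff_dvd_sub _ _ _).1 (a1.trans a2.symm)
      have a4 : hh.choose - δ = 0 := Int.eq_zero_of_abs_lt_dvd a3 (by
        have := abs_le.1 hδ.1
        have := abs_le.1 hc.1
        rw [abs_lt]; omega)
      rw [show hh.choose = δ by omega]
  have ext : ∀ u v : YY cst k, u.1.2 = v.1.2 → (u.1.1 = v.1.1 ∨ cst u.1.2) → u = v := by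
    rintro u v e (c | c)
    · exact Subtype.ext (Prod.ext c e)
    · exact Subtype.ext (Prod.ext (by rw [u.2 c, v.2 (e ▸ c)]) e)
  have ne : ∀ δ u v, u ≠ v → Near δ u v → ¬ Eqv cst δ u.1.2 v.1.2 := by
    rintro δ u v huv hδ ⟨e, c⟩
    refine huv (ext u v e ?_)
    rcases c with rfl | c
    · rcases hδ.2 with c | c | c
      · exact Or.inr c
      · exact Or.inr (e ▸ c)
      · left; rw [Int.cast_zero, eq_comm, sub_eq_zero] at c; exact c.symm
    · exact Or.inr c
  have far : ∀ u v, (¬ ∃ δ, Near δ u v) → ¬ Eqv cst 0 u.1.2 o ∧ ¬ Eqv cst 0 o v.1.2 :=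
    fun u v hh => ⟨fun e => hh ⟨0, by simp, Or.inl (e.1 ▸ ho)⟩,
      fun e => hh ⟨0, by simp, Or.inr (Or.inl (e.1 ▸ ho))⟩⟩
  obtain ⟨D, hD, hDH⟩ := complete_of_levels H
    (fun u v huv => by
      by_cases hh : ∃ δ, Near δ u v
      · obtain ⟨δ, hδ⟩ := hh
        rw [H1 δ u v hδ]
        exact Lk_tail fun l _ => h.link _ _ _ (ne δ u v huv hδ) l
      · simp only [H, dif_neg hh]
        exact (Lk_tail fun l _ => h.link _ _ _ (far u v hh).1 l).add
          (Lk_tail fun l _ => h.link _ _ _ (far u v hh).2 l))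
    (fun u v l => (Q l u.1 v.1 : ℝ) / (2 * Lam R * sc n : ℤ))
    (fun u l => by simp [q1])
    (fun u v w l => by
      rw [← add_div]
      exact div_le_div_of_nonneg_right (by exact_mod_cast q2 l u.1 v.1 w.1)
        (by exact_mod_cast hΘ.le))
    (fun u v huv l => by
      rw [← add_div, le_div_iff₀ (by exact_mod_cast hΘ), mul_comm]
      exact_mod_cast q3 l u.1 v.1 fun e => huv (ext u v e.1 e.2))
    (fun u v huv l => by
      rw [div_le_iff₀ (by exact_mod_cast hΘ), mul_comm]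
      suffices hs : Q l u.1 v.1 ≤ 2 * Lam R * sc n * H u v l by exact_mod_cast hs
      by_cases c : cst u.1.2 ∨ cst v.1.2
      · have hδ : Near 0 u v := ⟨by simp, by tauto⟩
        have e := ne 0 u v huv hδ
        rw [H1 0 u v hδ]
        rcases c with c | c
        · have := q5 l u.1 v.1 _ c
          rwa [hb, hb, if_pos ⟨rfl, Or.inl rfl⟩, if_neg e, zero_add] at this
        · have := q5 l u.1 v.1 _ c
          rwa [hb, hb, if_neg e, if_pos ⟨rfl, Or.inl rfl⟩, add_zero] at this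
      by_cases hh : ∃ δ, Near δ u v
      · obtain ⟨δ, hδ⟩ := hh
        rw [H1 δ u v hδ]
        exact q4 l u.1 v.1 δ hδ.1 (by have := hδ.2; tauto) (ne δ u v huv hδ)
      · have := q5 l u.1 v.1 o ho
        rw [hb, hb, if_neg (far u v hh).1, if_neg (far u v hh).2] at this
        simpa only [H, dif_neg hh] using this)
  refine ⟨k, hk3, D, hD, fun i δ r s hδ l hl => ?_⟩
  have n1 : Near δ (rep cst i r) (rep cst (i + δ) s) := ⟨hδ, by
    by_cases c : cst r
    · exact Or.inl c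
    by_cases c' : cst s
    · exact Or.inr (Or.inl c')
    · simp [rep, c, c']⟩
  have n2 : Near (-δ) (rep cst (i + δ) s) (rep cst i r) := ⟨by simpa using hδ, by
    by_cases c : cst r
    · exact Or.inr (Or.inl c)
    by_cases c' : cst s
    · exact Or.inl c'
    · simp [rep, c, c']⟩
  by_cases e : Eqv cst δ r s
  · have : rep cst i r = rep cst (i + (δ : ZMod k)) s := by
      refine ext _ _ e.1 ?_
      obtain ⟨rfl, rfl | c⟩ := e
      · left; simp
      · exact Or.inr c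
    rw [this, hD.diag, h.zero _ _ _ e]
  have huv : rep cst i r ≠ rep cst (i + (δ : ZMod k)) s := by
    intro huv
    have e1 : r = s := congrArg (fun y : YY cst k => y.1.2) huv
    subst e1
    refine e ⟨rfl, ?_⟩
    by_contra hc
    push Not at hc
    have e2 := congrArg (fun y : YY cst k => y.1.1) huv
    simp only [rep, if_neg hc.2, left_eq_add] at e2
    have := Int.le_of_dvd (abs_pos.2 hc.1)
      ((dvd_abs _ _).2 ((ZMod.intCast_zmod_eq_zero_iff_dvd _ _).1 e2))
    omega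
  have b1 := hDH _ _ huv l
  have b2 := hDH _ _ huv.symm l
  rw [H1 _ _ _ n1, tail_of_le _ hl] at b1
  rw [H1 _ _ _ n2, tail_of_le _ hl] at b2
  exact hD.eq_of_le huv b1 b2 (h.eq δ r s e l).le

end Pool.Agent.Lib.MP_e4697a_lc
end

-- part Pool.Agent.Lib.MP_e4697a_lc.Triple
section

/-!
Homogeneous triples give homogeneous lines.
-/

set_option autoImplicit false

namespace Pool.Agent.Lib.MP_e4697a_lc

open Filter

theorem ramsey_triple {β : Type*} (c : ℕ → ℕ → β) (S : Set β) (hS : S.Finite)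
    (hc : ∀ i j, c i j ∈ S) : ∃ i j k, i < j ∧ j < k ∧ c i k = c i j ∧ c j k = c i j := by
  have hev : ∀ l : ℕ, ∀ᶠ N in (hyperfilter ℕ : Filter ℕ), l < N := fun l =>
    (Nat.hyperfilter_le_atTop) (eventually_gt_atTop l)
  choose b hb using fun i => ultra_lim (hyperfilter ℕ) (c i) S hS (Eventually.of_forall (hc i))
  obtain ⟨e, he⟩ := ultra_lim (hyperfilter ℕ) b S hS (Eventually.of_forall fun i => by
    obtain ⟨j, hj⟩ := (hb i).exists
    exact hj ▸ hc i j)
  obtain ⟨i, hi⟩ := he.exists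
  obtain ⟨j, h1, h2, h3⟩ := ((hev i).and (he.and (hb i))).exists
  obtain ⟨k, h4, h5, h6⟩ := ((hev j).and ((hb i).and (hb j))).exists
  exact ⟨i, j, k, h1, h4, by rw [h5, h3], by rw [h6, h3, h2, hi]⟩

theorem sign_triple (δ ε : ℤ) : ∃ i j k : Fin 3, δ.sign = ((j : ℤ) - i).sign ∧
    ε.sign = ((k : ℤ) - j).sign ∧ (δ + ε).sign = ((k : ℤ) - i).sign := by
  have p := @Int.sign_eq_one_of_pos
  have q := @Int.sign_eq_neg_one_of_neg
  rcases lt_trichotomy δ 0 with a | rfl | a <;> rcases lt_trichotomy ε 0 with b | rfl | b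
  · exact ⟨2, 1, 0, by rw [q a]; rfl, by rw [q b]; rfl, by rw [q (by omega)]; rfl⟩
  · exact ⟨1, 0, 0, by rw [q a]; rfl, rfl, by rw [q (by omega)]; rfl⟩
  · rcases lt_trichotomy (δ + ε) 0 with c | c | c
    · exact ⟨2, 0, 1, by rw [q a]; rfl, by rw [p b]; rfl, by rw [q c]; rfl⟩
    · exact ⟨1, 0, 1, by rw [q a]; rfl, by rw [p b]; rfl, by rw [c]; rfl⟩
    · exact ⟨1, 0, 2, by rw [q a]; rfl, by rw [p b]; rfl, by rw [p c]; rfl⟩
  · exact ⟨1, 1, 0, rfl, by rw [q b]; rfl, by rw [q (by omega)]; rfl⟩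
  · exact ⟨0, 0, 0, rfl, rfl, rfl⟩
  · exact ⟨0, 0, 1, rfl, by rw [p b]; rfl, by rw [p (by omega)]; rfl⟩
  · rcases lt_trichotomy (δ + ε) 0 with c | c | c
    · exact ⟨1, 2, 0, by rw [p a]; rfl, by rw [q b]; rfl, by rw [q c]; rfl⟩
    · exact ⟨0, 1, 0, by rw [p a]; rfl, by rw [q b]; rfl, by rw [c]; rfl⟩
    · exact ⟨0, 2, 1, by rw [p a]; rfl, by rw [q b]; rfl, by rw [p c]; rfl⟩
  · exact ⟨0, 1, 1, by rw [p a]; rfl, rfl, by rw [p (by omega)]; rfl⟩
  · exact ⟨0, 1, 2, by rw [p a]; rfl, by rw [p b]; rfl, by rw [p (by omega)]; rfl⟩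

theorem Valid.eq_iff_zero {X : Type*} {D : X → X → ℕ → ℤ} (hD : Valid D) (x y : X) :
    x = y ↔ D x y 0 + D y x 0 = 0 := by
  constructor
  · rintro rfl; simp [hD.diag]
  · intro h
    by_contra hc
    rw [hD.eq x y hc, CC_zero] at h
    omega

theorem Line.mono {R : Type*} {cst : R → Prop} {T : ℤ → R → R → ℕ → ℤ} {N N' : ℕ}
    (h : Line cst N T) (hN : N' ≤ N) : Line cst N' T :=
  ⟨h.sgn, fun δ ε r s t l hl => h.tri δ ε r s t l (hl.trans hN), h.zero, h.eq, h.link,
    fun δ r s c l hl => h.cs δ r s c l (hl.trans hN)⟩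

/-- the labels of the line determined by two tuples -/
def lineT {X R : Type*} (D : X → X → ℕ → ℤ) (a b : R → X) (δ : ℤ) (r s : R) : ℕ → ℤ :=
  D (if δ < 0 then b r else a r) (if 0 < δ then b s else a s)

theorem line_of_triple {X R : Type*} {D : X → X → ℕ → ℤ} (hD : Valid D) (a : Fin 3 → R → X)
    (inj : Function.Injective (a 0)) (N : ℕ)
    (hom : ∀ i j : Fin 3, i < j → ∀ (t t' : Bool) (r s : R), ∀ l ≤ N,
      D (cond t (a j) (a i) r) (cond t' (a j) (a i) s) l =
        D (cond t (a 1) (a 0) r) (cond t' (a 1) (a 0) s) l) :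
    Line (fun r => a 0 r = a 1 r) N (lineT D (a 0) (a 1)) := by
  have w1 : ∀ r s, ∀ l ≤ N, D (a 1 r) (a 1 s) l = D (a 0 r) (a 0 s) l :=
    hom 1 2 (by decide) false false
  have val : ∀ (i j : Fin 3) (δ : ℤ), δ.sign = ((j : ℤ) - i).sign → ∀ r s, ∀ l ≤ N,
      lineT D (a 0) (a 1) δ r s l = D (a i r) (a j s) l := by
    intro i j δ h r s l hl
    rcases lt_trichotomy i j with c | rfl | c
    · have : 0 < δ := by
        rw [Int.sign_eq_one_of_pos (show (0 : ℤ) < (j : ℤ) - i by omega)] at h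
        exact Int.pos_of_sign_eq_one h
      rw [lineT, if_neg (by omega), if_pos this]
      exact (hom i j c false true r s l hl).symm
    · have : δ = 0 := by simpa using h
      rw [lineT, if_neg (by omega), if_neg (by omega)]
      fin_cases i
      · rfl
      · exact (w1 r s l hl).symm
      · exact ((hom 0 2 (by decide) true true r s l hl).trans (w1 r s l hl)).symm
    · have : δ < 0 := by
        rw [Int.sign_eq_neg_one_of_neg (show (j : ℤ) - i < 0 by omega)] at h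
        exact Int.neg_of_sign_eq_neg_one h
      rw [lineT, if_pos this, if_neg (by omega)]
      exact (hom j i c true false r s l hl).symm
  have same : ∀ i j : Fin 3, i < j → ∀ r s, a i r = a j s ↔ a 0 r = a 1 s := fun i j c r s => by
    rw [hD.eq_iff_zero, hD.eq_iff_zero (a 0 r)]
    have e1 := hom i j c false true r s 0 (by omega)
    have e2 := hom i j c true false s r 0 (by omega)
    simp only [cond] at e1 e2
    rw [e1, e2]
  have key : ∀ r s, a 0 r = a 1 s ↔ r = s ∧ a 0 r = a 1 r := fun r s => by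
    refine ⟨fun h => ?_, fun h => h.1 ▸ h.2⟩
    have h1 := (same 0 2 (by decide) r s).2 h
    have h2 := (same 1 2 (by decide) r s).2 h
    have h3 := (same 1 2 (by decide) s s).1 (h.symm.trans h1)
    exact ⟨inj (h.trans h3.symm), h1.trans h2.symm⟩
  have ev : ∀ (δ : ℤ) r s, Eqv (fun r => a 0 r = a 1 r) δ r s ↔
      (if δ < 0 then a 1 r else a 0 r) = (if 0 < δ then a 1 s else a 0 s) := fun δ r s => by
    unfold Eqv
    rcases lt_trichotomy δ 0 with c | rfl | c
    · rw [if_pos c, if_neg (by omega), eq_comm (a := a 1 r), key]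
      constructor
      · rintro ⟨rfl, h | h⟩
        · omega
        · exact ⟨rfl, h⟩
      · rintro ⟨rfl, h⟩; exact ⟨rfl, Or.inr h⟩
    · simp [inj.eq_iff]
    · rw [if_neg (by omega), if_pos c, key]
      simp [c.ne']
  refine ⟨fun δ r s => ?_, fun δ ε r s t l hl => ?_, fun δ r s e l => ?_, fun δ r s e l => ?_,
    fun δ r s e => hD.link _ _ fun h => e ((ev δ r s).2 h), fun δ r s c l hl => ?_⟩
  · simp [lineT]
  · obtain ⟨i, j, k, h1, h2, h3⟩ := sign_triple δ ε
    rw [val i j δ h1 r s l hl, val j k ε h2 s t l hl, val i k _ h3 r t l hl]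
    exact hD.tri _ _ _ l
  · rw [lineT, (ev δ r s).1 e, hD.diag]
  · have := hD.eq _ _ (fun h => e ((ev δ r s).2 h)) l
    simpa [lineT] using this
  · have := w1 r s l hl
    unfold lineT
    rcases lt_trichotomy δ 0 with d | rfl | d
    · rw [if_pos d, if_neg (by omega), if_neg (by omega), if_neg (by omega)]
      rcases c with c | c
      · rw [← c]
      · rw [← this, c]
    · rfl
    · rw [if_neg (by omega), if_pos d, if_neg (by omega), if_neg (by omega)]
      rcases c with c | c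
      · rw [← this, c]
      · rw [← c]

end Pool.Agent.Lib.MP_e4697a_lc
end

-- part Pool.Agent.Lib.MP_e4697a_lc.NSOP
section

/-!
The structure on the ordinals does not have the strict order property.
-/

set_option autoImplicit false

namespace Pool.Agent.Lib.MP_e4697a_lc

open FirstOrder FirstOrder.Language

/-- labels normalised at the base point -/
noncomputable def ND (x y : OO) (l : ℕ) : ℤ := DD x y l + (DD 0 x 0 - DD 0 y 0) * sc l

/-- potentials normalised at the base point -/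
noncomputable def NP (x : OO) (n : ℕ) : ZMod (2 ^ n) := pp x n + DD 0 x 0

theorem ND_valid : Valid ND := DD_valid.gauge fun x => DD 0 x 0

theorem ND_bdd (l : ℕ) : ∃ B : ℤ, ∀ x y, |ND x y l| ≤ B := by
  induction l with
  | zero =>
    refine ⟨8, fun x y => ?_⟩
    have := DD_valid.tri 0 x y 0
    have := DD_valid.tri 0 y x 0
    have := DD_valid.rho_le x y 0
    rw [CC_zero] at this
    rw [abs_le]; simp only [ND, sc]; omega
  | succ l ih =>
    obtain ⟨B, hB⟩ := ih
    refine ⟨Md (l + 1) * B + 2 * Md (l + 1), fun x y => ?_⟩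
    have h1 := abs_le.1 (hB x y)
    have h2 := gg_mem x y l
    have h3 := Md_pos (l + 1)
    have h4 : ND x y (l + 1) = Md (l + 1) * ND x y l - gg x y l := by
      rw [gg, ND, ND, sc_succ]; ring
    rw [h4, abs_le]
    constructor <;> nlinarith [h1.1, h1.2, h2.1, h2.2]

theorem Sm_of_ND {m : ℕ} {x y x' y' : OO} (h : ∀ l ≤ m, DD x' y' l = ND x y l)
    (hx : ∀ n < m, pp x' n = NP x n) (hy : ∀ n < m, pp y' n = NP y n) : Sm m x y x' y' :=
  Sm_of_DD h fun n hn => by rw [hx n hn, hy n hn, NP, NP]; push_cast; ring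

theorem hom_triple {ι : Type} [Finite ι] (F : ℕ → ι → OO) (N : ℕ) :
    ∃ i j, i < j ∧ ∃ a : Fin 3 → ι → OO, a 0 = F i ∧ a 1 = F j ∧
      (∀ x, ∀ n < N, NP (a 1 x) n = NP (a 0 x) n) ∧
      ∀ i j : Fin 3, i < j → ∀ (t t' : Bool) (r s : ι), ∀ l ≤ N,
        ND (cond t (a j) (a i) r) (cond t' (a j) (a i) s) l =
          ND (cond t (a 1) (a 0) r) (cond t' (a 1) (a 0) s) l := by
  choose B hB using ND_bdd
  obtain ⟨i, j, k, h1, h2, h3, h4⟩ := ramsey_triple
    (β := ((Bool × ι) × (Bool × ι) × Fin (N + 1) → ℤ) × (ι → ∀ n : Fin N, ZMod (2 ^ n.1)))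
    (fun i j => (fun z => ND (cond z.1.1 (F j) (F i) z.1.2) (cond z.2.1.1 (F j) (F i) z.2.1.2) z.2.2,
      fun x n => NP (F i x) n))
    ({f | ∀ z, f z ∈ Set.Icc (-B z.2.2) (B z.2.2)} ×ˢ Set.univ)
    ((Set.Finite.pi' fun _ => Set.finite_Icc _ _).prod Set.finite_univ)
    (fun i j => ⟨fun z => abs_le.1 (hB _ _ _), trivial⟩)
  refine ⟨i, j, h1, ![F i, F j, F k], rfl, rfl, fun x n hn => ?_, fun p q hpq t t' r s l hl => ?_⟩
  · exact congrFun (congrFun (congrArg Prod.snd h4) x) ⟨n, hn⟩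
  · have e3 := congrFun (congrArg Prod.fst h3) ((t, r), (t', s), ⟨l, by omega⟩)
    have e4 := congrFun (congrArg Prod.fst h4) ((t, r), (t', s), ⟨l, by omega⟩)
    fin_cases p <;> fin_cases q <;> first | exact absurd hpq (by decide) | rfl | exact e3 | exact e4

theorem cycle_tuples {ι : Type} [Finite ι] (f : ℕ → ι → OO) (m : ℕ) :
    ∃ i j, i < j ∧ ∃ k : ℕ, 3 ≤ k ∧ ∃ b : ZMod k → ι → OO,
      ∀ t, Agree m (Sum.elim (f i) (f j)) (Sum.elim (b t) (b (t + 1))) := by
  classical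
  have := Fintype.ofFinite ι
  obtain ⟨i, j, hij, a, a0, a1, hp, hom⟩ := hom_triple (fun i (x : Option ι) => x.elim 0 (f i))
    (m + 3 * Fintype.card (Option ι) ^ 2 + 2 + 1)
  let R := Set.range (a 0)
  let sec : R → Option ι := Set.rangeSplitting (a 0)
  let rf : Option ι → R := Set.rangeFactorization (a 0)
  have s0 : ∀ r : R, a 0 (sec r) = r := Set.apply_rangeSplitting (a 0)
  have w1 : ∀ r s, ∀ l ≤ m, ND (a 1 r) (a 1 s) l = ND (a 0 r) (a 0 s) l :=
    fun r s l hl => hom 1 2 (by decide) false false r s l (by omega)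
  have s1 : ∀ x, a 1 (sec (rf x)) = a 1 x := fun x => by
    rw [ND_valid.eq_iff_zero, w1 _ _ 0 (by omega), w1 _ _ 0 (by omega), ← ND_valid.eq_iff_zero]
    exact s0 _
  have hL := line_of_triple ND_valid (fun t r => a t (sec r))
    (fun r s h => Subtype.ext ((s0 r).symm.trans (h.trans (s0 s)))) _
    (fun p q hpq t t' r s l hl => by
      have := hom p q hpq t t' (sec r) (sec s) l hl
      cases t <;> cases t' <;> exact this)
  have hc : Fintype.card R ≤ Fintype.card (Option ι) :=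
    Fintype.card_le_of_surjective rf Set.rangeFactorization_surjective
  obtain ⟨k, hk, D, hD, hT⟩ := (hL.mono (N' := m + 3 * Fintype.card R ^ 2 + 2 + 1) (by
    have := Nat.pow_le_pow_left hc 2; omega)).cycle (rf none) (by
      simp only [s1, s0]; simp [rf, a0, a1])
  have : NeZero k := ⟨by omega⟩
  have : Finite (YY (fun r => a 0 (sec r) = a 1 (sec r)) k) := by unfold YY; infer_instance
  obtain ⟨e, e1, e2⟩ := embed_finite hD fun y => NP (a 0 (sec y.1.2))
  have p0 : ∀ t x, ∀ n < m, pp (e (rep _ t (rf x))) n = NP (a 0 x) n := fun t x n _ => by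
    rw [e1]; simp only [rep, s0]; rfl
  have p1 : ∀ t x, ∀ n < m, pp (e (rep _ t (rf x))) n = NP (a 1 x) n := fun t x n hn => by
    rw [p0 t x n hn, hp x n (by omega)]
  have d0 : ∀ t x y, ∀ l ≤ m, DD (e (rep _ t (rf x))) (e (rep _ t (rf y))) l =
      ND (a 0 x) (a 0 y) l := fun t x y l hl => by
    have := hT t 0 (rf x) (rf y) (by simp) l hl
    rw [Int.cast_zero, add_zero] at this
    rw [e2, this]; simp only [lineT, lt_self_iff_false, if_false, s0]; rfl
  have d1 : ∀ t x y, ∀ l ≤ m, DD (e (rep _ t (rf x))) (e (rep _ (t + 1) (rf y))) l =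
      ND (a 0 x) (a 1 y) l := fun t x y l hl => by
    have := hT t 1 (rf x) (rf y) (by simp) l hl
    rw [Int.cast_one] at this
    rw [e2, this]; simp only [lineT, one_pos, if_true, if_neg (show ¬ (1 : ℤ) < 0 by omega), s0, s1]
    rfl
  have f0 : ∀ x, f i x = a 0 (some x) := fun x => by rw [a0]; rfl
  have f1 : ∀ x, f j x = a 1 (some x) := fun x => by rw [a1]; rfl
  refine ⟨i, j, hij, k, hk, fun t x => e (rep _ t (rf (some x))), fun t => ?_⟩
  rintro (x | x) (y | y) <;> simp only [Sum.elim_inl, Sum.elim_inr, f0, f1]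
  · exact Sm_of_ND (d0 t _ _) (p0 t _) (p0 t _)
  · exact Sm_of_ND (d1 t _ _) (p0 t _) (p1 _ _)
  · exact (Sm_of_ND (d1 t _ _) (p0 t _) (p1 _ _)).rev
  · exact Sm_of_ND (fun l hl => (d0 _ _ _ l hl).trans (w1 _ _ l hl).symm) (p1 _ _) (p1 _ _)

theorem cycle_eq {α : Type*} {r : α → α → Prop} (tr : ∀ a b c, r a b → r b c → r a c)
    (an : ∀ a b, r a b → r b a → a = b) {k : ℕ} (hk : 3 ≤ k) (b : ZMod k → α)
    (h : ∀ t, r (b t) (b (t + 1))) : b 0 = b (0 + 1) := by
  have key : ∀ n : ℕ, r (b (0 + 1)) (b ((n + 2 : ℕ) : ZMod k)) := by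
    intro n
    induction n with
    | zero => simpa [one_add_one_eq_two] using h (0 + 1)
    | succ n ih => refine tr _ _ _ ih ?_; have := h ((n + 2 : ℕ) : ZMod k); push_cast at this ⊢
                   rwa [show (n : ZMod k) + 1 + 2 = n + 2 + 1 by ring]
  have := key (k - 2)
  rw [show k - 2 + 2 = k by omega, ZMod.natCast_self] at this
  exact an _ _ (h 0) this

theorem not_sop : ¬ HasSOP LL OO := by
  rintro ⟨n, φ, tr, an, S, hS, hch⟩
  obtain ⟨m, s, hq⟩ := qe φ
  obtain ⟨i, j, hij, k, hk, b, hb⟩ := cycle_tuples (fun i => (hS.natEmbedding S i).1) (m + 1)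
  have ne : (hS.natEmbedding S i).1 ≠ (hS.natEmbedding S j).1 := fun e =>
    hij.ne ((hS.natEmbedding S).injective (Subtype.ext e))
  have : b 0 = b (0 + 1) := by
    rcases hch (hS.natEmbedding S i).2 (hS.natEmbedding S j).2 ne with h | h
    · exact cycle_eq tr an hk b fun t =>
        (hq _ _ fun x _ y _ => (hb t x y).mono (by omega)).1 h
    · refine cycle_eq (r := fun x y => φ.Realize (Sum.elim y x)) (fun _ _ _ h1 h2 => tr _ _ _ h2 h1)
        (fun _ _ h1 h2 => an _ _ h2 h1) hk b fun t => (hq _ _ fun x _ y _ => ?_).1 h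
      have := (hb t x.swap y.swap).mono (show m ≤ m + 1 by omega)
      rcases x with x | x <;> rcases y with y | y <;> exact this
  refine ne (funext fun x => ?_)
  exact ((hb 0 (Sum.inl x) (Sum.inr x)).eq_iff (by omega)).2 (congrFun this x)

end Pool.Agent.Lib.MP_e4697a_lc
end
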