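import Mathlib

-- part Pool.Agent.Lib.MP_e4697a_lc.Arith
section

/-!
Arithmetic of the sawtooth links between consecutive levels.
-/

set_option autoImplicit false

namespace Pool.Agent.Lib.MP_e4697a_lc

open Filter

/-- modulus of level `l` -/
def Md (l : ℕ) : ℤ := 2 ^ l

/-- scale of level `l` -/
def sc : ℕ → ℤ
  | 0 => 1
  | l + 1 => Md (l + 1) * sc l

/-- half of the total weight of the two orientations of a pair -/
def ee : ℕ → ℤ
  | 0 => 4
  | l + 1 => Md (l + 1) * (ee l - 1)

/-- total weight of the two orientations of a pair -/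
def CC (l : ℕ) : ℤ := 2 * ee l

/-- deficiency -/
def df (l : ℕ) (v : ℤ) : ℤ := Md l - v % Md l

/-- largest successor -/
def FF (l : ℕ) (v : ℤ) : ℤ := Md (l + 1) * v - df l v

theorem Md_pos (l : ℕ) : 0 < Md l := by unfold Md; positivity

theorem Md_succ (l : ℕ) : Md (l + 1) = 2 * Md l := by unfold Md; ring

theorem Md_mono {l m : ℕ} (h : l ≤ m) : Md l ≤ Md m := by
  unfold Md; exact pow_le_pow_right₀ (by norm_num) h

theorem sc_pos (l : ℕ) : 0 < sc l := by
  induction l with
  | zero => simp [sc]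
  | succ l ih => simp only [sc]; exact mul_pos (Md_pos _) ih

theorem sc_succ (l : ℕ) : sc (l + 1) = Md (l + 1) * sc l := rfl

theorem ee_succ (l : ℕ) : ee (l + 1) = Md (l + 1) * (ee l - 1) := rfl

theorem CC_succ (l : ℕ) : CC (l + 1) = Md (l + 1) * CC l - 2 * Md (l + 1) := by
  simp only [CC, ee_succ]; ring

theorem CC_zero : CC 0 = 8 := rfl

theorem ee_ge (l : ℕ) : 2 * sc l + 2 ≤ ee l := by
  induction l with
  | zero => simp [sc, ee]
  | succ l ih =>
    rw [sc_succ, ee_succ]
    have h1 := Md_pos l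
    have h2 := Md_succ l
    nlinarith

theorem ee_le (l : ℕ) : ee l ≤ 4 * sc l := by
  induction l with
  | zero => simp [sc, ee]
  | succ l ih =>
    rw [sc_succ, ee_succ]
    have h1 := Md_pos (l + 1)
    nlinarith

theorem ee_pos (l : ℕ) : 0 < ee l := by have := ee_ge l; have := sc_pos l; omega

theorem CC_pos (l : ℕ) : 0 < CC l := by have := ee_pos l; unfold CC; omega

theorem df_pos (l : ℕ) (v : ℤ) : 1 ≤ df l v := by
  have := Int.emod_lt_of_pos v (Md_pos l)
  unfold df; omega

theorem df_le (l : ℕ) (v : ℤ) : df l v ≤ Md l := by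
  have := Int.emod_nonneg v (Md_pos l).ne'
  unfold df; omega

theorem FF_mono (l : ℕ) {v w : ℤ} (h : v ≤ w) : FF l v ≤ FF l w := by
  rcases h.eq_or_lt with rfl | h
  · exact le_rfl
  · have h1 := df_pos l v
    have h2 := df_le l w
    have h3 := Md_succ l
    have h4 := Md_pos l
    unfold FF
    nlinarith

theorem emod_add_cases (m p q : ℤ) (hm : 0 < m) :
    ((p + q) % m = p % m + q % m ∧ p % m + q % m < m) ∨
      ((p + q) % m = p % m + q % m - m ∧ m ≤ p % m + q % m) := by
  have h1 := Int.emod_lt_of_pos p hm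
  have h2 := Int.emod_lt_of_pos q hm
  have h3 := Int.emod_nonneg p hm.ne'
  have h4 := Int.emod_nonneg q hm.ne'
  rw [Int.add_emod]
  by_cases h : p % m + q % m < m
  · left; exact ⟨Int.emod_eq_of_lt (by omega) h, h⟩
  · right
    refine ⟨?_, by omega⟩
    have : p % m + q % m = (p % m + q % m - m) + m := by ring
    rw [this, Int.add_emod_right, Int.emod_eq_of_lt (by omega) (by omega)]
    ring

theorem df_add_le (l : ℕ) (p q : ℤ) : df l (p + q) ≤ df l p + df l q := by
  have := Md_pos l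
  rcases emod_add_cases (Md l) p q (Md_pos l) with h | h <;> unfold df <;> omega

theorem df_add_eq (l : ℕ) (p q : ℤ) (h : df l p + df l q ≤ Md l) :
    df l (p + q) = df l p + df l q := by
  rcases emod_add_cases (Md l) p q (Md_pos l) with h' | h' <;> unfold df at * <;> omega

theorem FF_add (l : ℕ) (p q : ℤ) : FF l p + FF l q ≤ FF l (p + q) := by
  have := df_add_le l p q
  unfold FF; nlinarith

theorem FF_add_eq (l : ℕ) (p q : ℤ) (h : df l p + df l q ≤ Md l) :
    FF l (p + q) = FF l p + FF l q := by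
  have := df_add_eq l p q h
  unfold FF; rw [this]; ring

theorem df_FF (l : ℕ) (v : ℤ) : df (l + 1) (FF l v) = df l v := by
  have h1 := df_pos l v
  have h2 := df_le l v
  have h3 := Md_succ l
  have h4 := Md_pos l
  have : FF l v = (Md (l + 1) - df l v) + Md (l + 1) * (v - 1) := by unfold FF; ring
  have h5 : FF l v % Md (l + 1) = Md (l + 1) - df l v := by
    rw [this, Int.add_mul_emod_self_left, Int.emod_eq_of_lt (by omega) (by omega)]
  rw [df, h5]; ring

theorem Md_dvd_sc (l : ℕ) : Md l ∣ sc l := by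
  cases l with
  | zero => simp [Md, sc]
  | succ l => exact Dvd.intro _ rfl

theorem FF_gauge (l : ℕ) (v k : ℤ) : FF l (v + k * sc l) = FF l v + k * sc (l + 1) := by
  obtain ⟨c, hc⟩ := Md_dvd_sc l
  have : (v + k * sc l) % Md l = v % Md l := by
    rw [hc, show k * (Md l * c) = Md l * (k * c) by ring, Int.add_mul_emod_self_left]
  unfold FF df
  rw [this, sc_succ]; ring

theorem FF_ge (l : ℕ) (v : ℤ) : Md (l + 1) * v - Md l ≤ FF l v := by
  have := df_le l v; unfold FF; omega

theorem FF_lt (l : ℕ) (v : ℤ) : FF l v + 1 ≤ Md (l + 1) * v := by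
  have := df_pos l v; unfold FF; omega

/-- linked from above: every value is at most the largest successor of the previous one -/
def Lk (u : ℕ → ℤ) : Prop := ∀ l, u (l + 1) ≤ FF l (u l)

theorem Lk.add {u v : ℕ → ℤ} (hu : Lk u) (hv : Lk v) : Lk (fun l => u l + v l) := fun l =>
  (add_le_add (hu l) (hv l)).trans (FF_add l _ _)

theorem Lk.gauge {u : ℕ → ℤ} (hu : Lk u) (k : ℤ) : Lk (fun l => u l + k * sc l) := fun l => by
  simp only [FF_gauge]; exact add_le_add (hu l) le_rfl

theorem Lk_ee : Lk ee := fun l => by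
  have h1 := FF_ge l (ee l)
  have h2 := Md_succ l
  have h3 := Md_pos l
  rw [ee_succ]; nlinarith

theorem exists_pred (l : ℕ) (w : ℤ) :
    ∃ v, w ≤ FF l v ∧ CC (l + 1) - w ≤ FF l (CC l - v) := by
  have h2 := Md_succ l
  have h3 := Md_pos l
  have h4 := Md_pos (l + 1)
  refine ⟨(w + 3 * Md l) / Md (l + 1), ?_, ?_⟩
  · refine le_trans ?_ (FF_ge _ _)
    have := Int.mul_ediv_add_emod (w + 3 * Md l) (Md (l + 1))
    have := Int.emod_lt_of_pos (w + 3 * Md l) h4
    omega
  · refine le_trans ?_ (FF_ge _ _)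
    have := Int.mul_ediv_add_emod (w + 3 * Md l) (Md (l + 1))
    have := Int.emod_nonneg (w + 3 * Md l) h4.ne'
    rw [CC_succ, mul_sub]
    omega

theorem pred_between (l : ℕ) (w U U' U1 U1' : ℤ) (hU : U1 ≤ FF l U) (hU' : U1' ≤ FF l U')
    (hC : CC l ≤ U + U') (hw : w ≤ U1) (hw' : CC (l + 1) - w ≤ U1') :
    ∃ v, v ≤ U ∧ CC l - v ≤ U' ∧ w ≤ FF l v ∧ CC (l + 1) - w ≤ FF l (CC l - v) := by
  obtain ⟨v, h1, h2⟩ := exists_pred l w
  by_cases ha : U < v
  · exact ⟨U, le_rfl, by omega, hw.trans hU, h2.trans (FF_mono l (by omega))⟩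
  by_cases hb : U' < CC l - v
  · refine ⟨CC l - U', by omega, by omega, h1.trans (FF_mono l (by omega)), ?_⟩
    rw [sub_sub_cancel]; exact hw'.trans hU'
  · exact ⟨v, by omega, by omega, h1, h2⟩

theorem ultra_lim {ι β : Type*} (U : Ultrafilter ι) (f : ι → β) (S : Set β) (hS : S.Finite)
    (hf : ∀ᶠ i in (U : Filter ι), f i ∈ S) : ∃ b, ∀ᶠ i in (U : Filter ι), f i = b := by
  obtain ⟨b, -, hb⟩ := Ultrafilter.eq_pure_of_finite_mem (f := U.map f) hS (Ultrafilter.mem_map.2 hf)
  refine ⟨b, ?_⟩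
  have : {b} ∈ U.map f := by rw [hb]; simp
  exact Ultrafilter.mem_map.1 this

theorem finite_chain (U U' : ℕ → ℤ) (hU : Lk U) (hU' : Lk U') (hC : ∀ l, CC l ≤ U l + U' l)
    (N : ℕ) : ∀ w, w ≤ U N → CC N - w ≤ U' N → ∃ t : ℕ → ℤ, t N = w ∧
      (∀ l ≤ N, t l ≤ U l ∧ CC l - t l ≤ U' l) ∧
      ∀ l < N, t (l + 1) ≤ FF l (t l) ∧ CC (l + 1) - t (l + 1) ≤ FF l (CC l - t l) := by
  induction N with
  | zero =>
    intro w h1 h2
    refine ⟨fun _ => w, rfl, ?_, by simp⟩
    intro l hl
    obtain rfl : l = 0 := by omega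
    exact ⟨h1, h2⟩
  | succ N ih =>
    intro w h1 h2
    obtain ⟨v, a1, a2, a3, a4⟩ := pred_between N w _ _ _ _ (hU N) (hU' N) (hC N) h1 h2
    obtain ⟨t, b1, b2, b3⟩ := ih v a1 a2
    refine ⟨Function.update t (N + 1) w, by simp, ?_, ?_⟩
    · intro l hl
      rcases hl.eq_or_lt with rfl | hl
      · simp [h1, h2]
      · rw [Function.update_of_ne (by omega)]; exact b2 l (by omega)
    · intro l hl
      rw [Function.update_of_ne (show l ≠ N + 1 by omega)]
      by_cases h : l = N
      · subst h; simp [b1, a3, a4]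
      · rw [Function.update_of_ne (by omega)]; exact b3 l (by omega)

/-- interpolation -/
theorem interp (U U' : ℕ → ℤ) (hU : Lk U) (hU' : Lk U') (hC : ∀ l, CC l ≤ U l + U' l) :
    ∃ t : ℕ → ℤ, Lk t ∧ Lk (fun l => CC l - t l) ∧ ∀ l, t l ≤ U l ∧ CC l - t l ≤ U' l := by
  choose t ht using fun N => finite_chain U U' hU hU' hC N (U N) le_rfl (by have := hC N; omega)
  have hev : ∀ l : ℕ, ∀ᶠ N in (hyperfilter ℕ : Filter ℕ), l < N := fun l =>
    (Nat.hyperfilter_le_atTop) (eventually_gt_atTop l)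
  have hlim : ∀ l, ∃ b, ∀ᶠ N in (hyperfilter ℕ : Filter ℕ), t N l = b := fun l =>
    ultra_lim (hyperfilter ℕ) (fun N => t N l) (Set.Icc (CC l - U' l) (U l)) (Set.finite_Icc _ _)
      ((hev l).mono fun N hN => by
        have := (ht N).2.1 l hN.le
        constructor <;> omega)
  choose b hb using hlim
  have key : ∀ l, ∃ N, l + 1 < N ∧ t N l = b l ∧ t N (l + 1) = b (l + 1) := fun l =>
    ((hev (l + 1)).and ((hb l).and (hb (l + 1)))).exists
  refine ⟨b, fun l => ?_, fun l => ?_, fun l => ?_⟩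
  · obtain ⟨N, h1, h2, h3⟩ := key l
    rw [← h2, ← h3]; exact ((ht N).2.2 l (by omega)).1
  · obtain ⟨N, h1, h2, h3⟩ := key l
    simp only [← h2, ← h3]; exact ((ht N).2.2 l (by omega)).2
  · obtain ⟨N, h1, h2, h3⟩ := key l
    rw [← h2]; exact (ht N).2.1 l (by omega)

/-- the sequence that follows `u` up to level `m` and takes largest successors afterwards -/
def tail (m : ℕ) (u : ℕ → ℤ) : ℕ → ℤ
  | 0 => u 0
  | l + 1 => if l < m then u (l + 1) else FF l (tail m u l)

theorem tail_of_le {m l : ℕ} (u : ℕ → ℤ) (h : l ≤ m) : tail m u l = u l := by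
  cases l with
  | zero => rfl
  | succ l => simp only [tail]; rw [if_pos (by omega)]

theorem tail_succ {m l : ℕ} (u : ℕ → ℤ) (h : m ≤ l) :
    tail m u (l + 1) = FF l (tail m u l) := by
  simp only [tail]; rw [if_neg (by omega)]

theorem Lk_tail {m : ℕ} {u : ℕ → ℤ} (hu : ∀ l < m, u (l + 1) ≤ FF l (u l)) : Lk (tail m u) := by
  intro l
  by_cases h : l < m
  · rw [tail_of_le u (by omega), tail_of_le u h.le]; exact hu l h
  · rw [tail_succ u (by omega)]

theorem le_tail {m N : ℕ} {u : ℕ → ℤ} (hu : ∀ l < N, u (l + 1) ≤ FF l (u l)) :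
    ∀ l ≤ N, u l ≤ tail m u l := by
  intro l
  induction l with
  | zero => intro _; exact le_rfl
  | succ l ih =>
    intro hl
    by_cases h : l < m
    · rw [tail_of_le u (by omega)]
    · rw [tail_succ u (by omega)]
      exact (hu l (by omega)).trans (FF_mono l (ih (by omega)))

theorem df_tail {m l : ℕ} (u : ℕ → ℤ) (h : m ≤ l) : df l (tail m u l) ≤ Md m := by
  induction l, h using Nat.le_induction with
  | base => exact df_le _ _
  | succ l h ih => rw [tail_succ u h, df_FF]; exact ih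

end Pool.Agent.Lib.MP_e4697a_lc
end

-- part Pool.Agent.Lib.MP_e4697a_lc.Completion
section

/-!
Completion of systems of upper bounds to valid labelled structures.
-/

set_option autoImplicit false

namespace Pool.Agent.Lib.MP_e4697a_lc

variable {X : Type*}

/-- systems of upper bounds -/
structure Pre (H : X → X → ℕ → ℤ) : Prop where
  diag : ∀ x l, H x x l = 0
  link : ∀ x y, x ≠ y → Lk (H x y)
  rho : ∀ x y, x ≠ y → ∀ l, CC l ≤ H x y l + H y x l
  tri : ∀ x y z l, H x z l ≤ H x y l + H y z l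

/-- valid labelled structures -/
structure Valid (D : X → X → ℕ → ℤ) : Prop extends Pre D where
  eq : ∀ x y, x ≠ y → ∀ l, D x y l + D y x l = CC l

theorem Pre.rho_nonneg {H : X → X → ℕ → ℤ} (h : Pre H) (x y : X) (l : ℕ) :
    0 ≤ H x y l + H y x l := by
  have := h.tri x y x l
  rw [h.diag] at this; exact this

theorem Valid.rho_le {D : X → X → ℕ → ℤ} (h : Valid D) (x y : X) (l : ℕ) :
    D x y l + D y x l ≤ CC l := by
  by_cases hxy : x = y
  · subst hxy; rw [h.diag]; have := CC_pos l; omega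
  · exact (h.eq x y hxy l).le

theorem Valid.comp {Y : Type*} {D : X → X → ℕ → ℤ} (h : Valid D) {f : Y → X}
    (hf : Function.Injective f) : Valid (fun x y => D (f x) (f y)) where
  diag x l := h.diag _ l
  link x y hxy := h.link _ _ (hf.ne hxy)
  rho x y hxy := h.rho _ _ (hf.ne hxy)
  tri x y z l := h.tri _ _ _ l
  eq x y hxy := h.eq _ _ (hf.ne hxy)

theorem Valid.gauge {D : X → X → ℕ → ℤ} (h : Valid D) (j : X → ℤ) :
    Valid (fun x y l => D x y l + (j x - j y) * sc l) where
  diag x l := by simp [h.diag]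
  link x y hxy := (h.link x y hxy).gauge _
  rho x y hxy l := by have := h.rho x y hxy l; nlinarith
  tri x y z l := by have := h.tri x y z l; nlinarith
  eq x y hxy l := by have := h.eq x y hxy l; nlinarith

theorem Lk.min {u v : ℕ → ℤ} (hu : Lk u) (hv : Lk v) : Lk (fun l => min (u l) (v l)) := by
  intro l
  rcases le_total (u l) (v l) with h | h
  · simp only [min_eq_left h]; exact (min_le_left _ _).trans (hu l)
  · simp only [min_eq_right h]; exact (min_le_right _ _).trans (hv l)

theorem Pre.lk_path {H : X → X → ℕ → ℤ} (h : Pre H) {t : ℕ → ℤ} (ht : Lk t) (x a b y : X) :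
    Lk (fun l => H x a l + t l + H b y l) := by
  have h1 : Lk (fun l => H x a l + t l) := by
    by_cases hx : x = a
    · subst hx; simpa [h.diag] using ht
    · exact (h.link x a hx).add ht
  by_cases hy : b = y
  · subst hy; simpa [h.diag] using h1
  · exact h1.add (h.link b y hy)

theorem Pre.shortcut {H : X → X → ℕ → ℤ} (h : Pre H) {a b : X} {t : ℕ → ℤ}
    (h1 : Lk t) (h2 : Lk (fun l => CC l - t l))
    (h3 : ∀ l, t l ≤ H a b l ∧ CC l - t l ≤ H b a l) (hab : a ≠ b) :
    Pre (fun x y l => min (H x y l)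
      (min (H x a l + t l + H b y l) (H x b l + (CC l - t l) + H a y l))) where
  diag x l := by
    have := h.tri b x a l
    have := h.tri a x b l
    have := h3 l
    have := h.rho a b hab l
    have := CC_pos l
    rw [h.diag]
    omega
  link x y hxy := (h.link x y hxy).min ((h.lk_path h1 x a b y).min (h.lk_path h2 x b a y))
  rho x y hxy l := by
    have := h.rho x y hxy l
    have := h3 l
    have := CC_pos l
    have := h.rho_nonneg x a l
    have := h.rho_nonneg x b l
    have := h.rho_nonneg y a l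
    have := h.rho_nonneg y b l
    have := h.tri b x a l
    have := h.tri b y a l
    have := h.tri a x b l
    have := h.tri a y b l
    have := h.tri b x y l
    have := h.tri b y x l
    have := h.tri a x y l
    have := h.tri a y x l
    omega
  tri x y z l := by
    have := h3 l
    have := CC_pos l
    have := h.tri x y z l
    have := h.tri x y a l
    have := h.tri x y b l
    have := h.tri a y z l
    have := h.tri b y z l
    have := h.tri b y a l
    have := h.tri a y b l
    have := h.tri x a z l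
    have := h.tri x b z l
    have := h.rho_nonneg y a l
    have := h.rho_nonneg y b l
    omega

theorem zorn_min {α : Type*} [PartialOrder α] (s : Set α)
    (ih : ∀ c ⊆ s, IsChain (· ≤ ·) c → ∀ y ∈ c, ∃ lb ∈ s, ∀ z ∈ c, lb ≤ z) (x : α) (hx : x ∈ s) :
    ∃ m ∈ s, ∀ y ∈ s, y ≤ m → m ≤ y := by
  obtain ⟨m, -, hm⟩ := zorn_le_nonempty₀ (α := αᵒᵈ) s
    (fun c hc hch y hy => ih c hc hch.symm y hy) x hx
  exact ⟨m, hm.prop, fun y hy h => hm.le_of_ge hy h⟩

theorem Pre.complete {H : X → X → ℕ → ℤ} (h : Pre H) :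
    ∃ D, Valid D ∧ ∀ x y l, D x y l ≤ H x y l := by
  obtain ⟨m, ⟨hP, hle⟩, hm⟩ := zorn_min {K : X → X → ℕ → ℤ | Pre K ∧ ∀ x y l, K x y l ≤ H x y l}
    (fun c hc hch y0 hy0 => by
    have hleast : ∀ x y l, ∃ v : ℤ, (∃ K ∈ c, K x y l = v) ∧
        ∀ w : ℤ, (∃ K ∈ c, K x y l = w) → v ≤ w := by
      intro x y l
      refine Int.exists_least_of_bdd ⟨-H y x l, ?_⟩ ⟨_, y0, hy0, rfl⟩
      rintro w ⟨K, hK, rfl⟩
      have h1 := (hc hK).1.rho_nonneg x y l
      have h2 := (hc hK).2 y x l
      omega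
    choose L hL1 hL2 using hleast
    have hle : ∀ K ∈ c, ∀ x y l, L x y l ≤ K x y l :=
      fun K hK x y l => hL2 x y l _ ⟨K, hK, rfl⟩
    have two : ∀ x y l x' y' l', ∃ K ∈ c, K x y l = L x y l ∧ K x' y' l' = L x' y' l' := by
      intro x y l x' y' l'
      obtain ⟨K, hK, e⟩ := hL1 x y l
      obtain ⟨K', hK', e'⟩ := hL1 x' y' l'
      rcases hch.total hK hK' with hh | hh
      · refine ⟨K, hK, e, le_antisymm (e' ▸ hh x' y' l') (hle _ hK _ _ _)⟩
      · refine ⟨K', hK', le_antisymm (e ▸ hh x y l) (hle _ hK' _ _ _), e'⟩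
    refine ⟨L, ⟨⟨?_, ?_, ?_, ?_⟩, ?_⟩, fun K hK x y l => hle K hK x y l⟩
    · intro x l
      obtain ⟨K, hK, e⟩ := hL1 x x l
      exact e.symm.trans ((hc hK).1.diag x l)
    · intro x y hxy l
      obtain ⟨K, hK, e⟩ := hL1 x y l
      exact (hle K hK x y (l + 1)).trans (e ▸ (hc hK).1.link x y hxy l)
    · intro x y hxy l
      obtain ⟨K, hK, e, e'⟩ := two x y l y x l
      exact e ▸ e' ▸ (hc hK).1.rho x y hxy l
    · intro x y z l
      obtain ⟨K, hK, e, e'⟩ := two x y l y z l
      exact (hle K hK x z l).trans (e ▸ e' ▸ (hc hK).1.tri x y z l)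
    · exact fun x y l => (hle y0 hy0 x y l).trans ((hc hy0).2 x y l))
    H ⟨h, fun _ _ _ => le_rfl⟩
  refine ⟨m, ⟨hP, fun a b hab l => ?_⟩, hle⟩
  obtain ⟨t, t1, t2, t3⟩ := interp _ _ (hP.link a b hab) (hP.link b a hab.symm) (hP.rho a b hab)
  have hs := hP.shortcut t1 t2 t3 hab
  have hmm := hm _ ⟨hs, fun x y l => (min_le_left _ _).trans
    (hle x y l)⟩ (fun x y l => min_le_left _ _)
  have e1 := hmm a b l
  have e2 := hmm b a l
  simp only [le_min_iff, hP.diag] at e1 e2
  have := hP.rho a b hab l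
  omega

/-- completion from level-wise real quasi-metrics below linked bounds -/
theorem complete_of_levels (h : X → X → ℕ → ℤ) (hl : ∀ x y, x ≠ y → Lk (h x y))
    (Q : X → X → ℕ → ℝ) (Qd : ∀ x l, Q x x l = 0)
    (Qt : ∀ x y z l, Q x z l ≤ Q x y l + Q y z l)
    (Qr : ∀ x y, x ≠ y → ∀ l, (CC l : ℝ) ≤ Q x y l + Q y x l)
    (Qh : ∀ x y, x ≠ y → ∀ l, Q x y l ≤ h x y l) :
    ∃ D, Valid D ∧ ∀ x y, x ≠ y → ∀ l, D x y l ≤ h x y l := by
  classical
  let S : ℕ → (X → X → ℤ) → Prop := fun l q => (∀ x, q x x = 0) ∧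
    (∀ x y z, q x z ≤ q x y + q y z) ∧ ∀ x y, x ≠ y → q x y ≤ h x y l
  have hQ : ∀ l, S l (fun x y => ⌈Q x y l⌉) := fun l =>
    ⟨fun x => by simp [Qd], fun x y z => (Int.ceil_mono (Qt x y z l)).trans (Int.ceil_add_le _ _),
      fun x y hxy => Int.ceil_le.2 (Qh x y hxy l)⟩
  have hgr : ∀ x y l, ∃ v : ℤ, (∃ q, S l q ∧ q x y = v) ∧
      ∀ w : ℤ, (∃ q, S l q ∧ q x y = w) → w ≤ v := by
    intro x y l
    refine Int.exists_greatest_of_bdd ⟨max 0 (h x y l), ?_⟩ ⟨_, fun x y => ⌈Q x y l⌉, hQ l, rfl⟩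
    rintro w ⟨q, hq, rfl⟩
    by_cases hxy : x = y
    · subst hxy; rw [hq.1]; exact le_max_left _ _
    · exact (hq.2.2 x y hxy).trans (le_max_right _ _)
  choose H hH1 hH2 using hgr
  have hle : ∀ l q, S l q → ∀ x y, q x y ≤ H x y l := fun l q hq x y => hH2 x y l _ ⟨q, hq, rfl⟩
  have hS : ∀ l, S l (fun x y => H x y l) := by
    intro l
    refine ⟨fun x => ?_, fun x y z => ?_, fun x y hxy => ?_⟩
    · obtain ⟨q, hq, e⟩ := hH1 x x l
      exact e.symm.trans (hq.1 x)
    · obtain ⟨q, hq, e⟩ := hH1 x z l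
      exact e.symm.le.trans ((hq.2.1 x y z).trans (add_le_add (hle l q hq _ _) (hle l q hq _ _)))
    · obtain ⟨q, hq, e⟩ := hH1 x y l
      exact e.symm.le.trans (hq.2.2 x y hxy)
  have hB : ∀ l w, ∃ v : ℤ, w ≤ FF l v ∧ ∀ v' : ℤ, w ≤ FF l v' → v ≤ v' := by
    intro l w
    refine Int.exists_least_of_bdd ⟨-|w|, fun v hv => ?_⟩ ((exists_pred l w).imp fun _ h => h.1)
    have h1 := FF_lt l v
    have h2 := Md_pos (l + 1)
    have h3 := neg_abs_le w
    have h4 := abs_nonneg w
    by_contra hc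
    nlinarith
  choose B hB1 hB2 using hB
  have hP : Pre H := by
    refine ⟨fun x l => (hS l).1 x, fun x y hxy l => ?_, fun x y hxy l => ?_,
      fun x y z l => (hS l).2.1 x y z⟩
    · have hq : S l (fun x y => if x = y then 0 else B l (H x y (l + 1))) := by
        refine ⟨fun x => by simp, fun x y z => ?_, fun x y hxy => ?_⟩
        · by_cases h1 : x = y
          · subst h1; simp
          by_cases h2 : y = z
          · subst h2; simp
          simp only [if_neg h1, if_neg h2]
          have h3 := (add_le_add (hB1 l (H x y (l + 1))) (hB1 l (H y z (l + 1)))).trans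
            (FF_add l _ _)
          have h4 := ((hS (l + 1)).2.1 x y z).trans h3
          by_cases h5 : x = z
          · subst h5
            rw [if_pos rfl]
            have h6 := (hS (l + 1)).1 x
            have h7 := FF_lt l (B l (H x y (l + 1)) + B l (H y x (l + 1)))
            have h8 := Md_pos (l + 1)
            simp only at h6 h4
            by_contra hc
            nlinarith
          · rw [if_neg h5]; exact hB2 _ _ _ h4
        · simp only [if_neg hxy]
          exact hB2 _ _ _ (((hS (l + 1)).2.2 x y hxy).trans (hl x y hxy l))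
      have h1 := hle l (fun x y => if x = y then 0 else B l (H x y (l + 1))) hq x y
      simp only [if_neg hxy] at h1
      exact (hB1 l _).trans (FF_mono l h1)
    · have h1 := hle l (fun x y => ⌈Q x y l⌉) (hQ l) x y
      have h2 := hle l (fun x y => ⌈Q x y l⌉) (hQ l) y x
      have h3 := Qr x y hxy l
      have h4 := Int.le_ceil (Q x y l)
      have h5 := Int.le_ceil (Q y x l)
      have : (CC l : ℝ) ≤ ((⌈Q x y l⌉ + ⌈Q y x l⌉ : ℤ) : ℝ) := by push_cast; linarith
      have h6 : CC l ≤ ⌈Q x y l⌉ + ⌈Q y x l⌉ := by exact_mod_cast this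
      omega
  obtain ⟨D, hD, hDH⟩ := hP.complete
  exact ⟨D, hD, fun x y hxy l => (hDH x y l).trans ((hS l).2.2 x y hxy)⟩

theorem Valid.eq_of_le {D : X → X → ℕ → ℤ} (h : Valid D) {x y : X} (hxy : x ≠ y) {l : ℕ}
    {p q : ℤ} (hp : D x y l ≤ p) (hq : D y x l ≤ q) (hpq : p + q ≤ CC l) : D x y l = p := by
  have := h.eq x y hxy l; omega

/-- `r x` are the labels from the points `x` to a new point -/
structure OnePt (D : X → X → ℕ → ℤ) (r : X → ℕ → ℤ) : Prop where
  link : ∀ x, Lk (r x)
  link' : ∀ x, Lk (fun l => CC l - r x l)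
  tri : ∀ x y l, r x l ≤ D x y l + r y l

theorem Pre.lk_add {H : X → X → ℕ → ℤ} (h : Pre H) {t : ℕ → ℤ} (ht : Lk t) (x a : X) :
    Lk (fun l => H x a l + t l) := by
  by_cases hx : x = a
  · subst hx; simpa [h.diag] using ht
  · exact (h.link x a hx).add ht

theorem Valid.ext_pt {D : X → X → ℕ → ℤ} (h : Valid D) {ι : Type*} [Nonempty ι] (b : ι → X)
    (p q : ι → ℕ → ℤ) (hp : ∀ i, Lk (p i)) (hq : ∀ i, Lk (q i))
    (hC : ∀ i j l, CC l ≤ p i l + q j l + D (b j) (b i) l) :
    ∃ r, OnePt D r ∧ ∀ i l, r (b i) l ≤ p i l ∧ CC l - r (b i) l ≤ q i l := by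
  obtain ⟨i0⟩ := ‹Nonempty ι›
  have h1 : ∀ x l, ∃ v : ℤ, (∃ i, D x (b i) l + p i l = v) ∧
      ∀ w : ℤ, (∃ i, D x (b i) l + p i l = w) → v ≤ w := by
    intro x l
    refine Int.exists_least_of_bdd ⟨CC l - q i0 l - D (b i0) x l, ?_⟩ ⟨_, i0, rfl⟩
    rintro w ⟨i, rfl⟩
    have := hC i i0 l
    have := h.tri (b i0) x (b i) l
    omega
  have h2 : ∀ x l, ∃ v : ℤ, (∃ i, D (b i) x l + q i l = v) ∧
      ∀ w : ℤ, (∃ i, D (b i) x l + q i l = w) → v ≤ w := by
    intro x l
    refine Int.exists_least_of_bdd ⟨CC l - p i0 l - D x (b i0) l, ?_⟩ ⟨_, i0, rfl⟩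
    rintro w ⟨i, rfl⟩
    have := hC i0 i l
    have := h.tri (b i) x (b i0) l
    omega
  choose P P1 P2 using h1
  choose Q Q1 Q2 using h2
  have P3 : ∀ x l i, P x l ≤ D x (b i) l + p i l := fun x l i => P2 x l _ ⟨i, rfl⟩
  have Q3 : ∀ x l i, Q x l ≤ D (b i) x l + q i l := fun x l i => Q2 x l _ ⟨i, rfl⟩
  have PL : ∀ x, Lk (P x) := fun x l => by
    obtain ⟨i, e⟩ := P1 x l
    exact (P3 x (l + 1) i).trans (e ▸ h.toPre.lk_add (hp i) x (b i) l)
  have QL : ∀ x, Lk (Q x) := fun x l => by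
    obtain ⟨i, e⟩ := Q1 x l
    exact (Q3 x (l + 1) i).trans (e ▸ h.toPre.lk_add (hq i) (b i) x l)
  have PQ : ∀ x y l, CC l ≤ P x l + Q y l + D y x l := fun x y l => by
    obtain ⟨i, e⟩ := P1 x l
    obtain ⟨j, e'⟩ := Q1 y l
    have := hC i j l
    have := h.tri (b j) y (b i) l
    have := h.tri y x (b i) l
    omega
  have Pt : ∀ x y l, P x l ≤ D x y l + P y l := fun x y l => by
    obtain ⟨i, e⟩ := P1 y l
    have := P3 x l i
    have := h.tri x y (b i) l
    omega
  have Qt : ∀ x y l, Q y l ≤ Q x l + D x y l := fun x y l => by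
    obtain ⟨i, e⟩ := Q1 x l
    have := Q3 y l i
    have := h.tri (b i) x y l
    omega
  let H : Option X → Option X → ℕ → ℤ := fun u v => match u, v with
    | some x, some y => D x y
    | some x, none => P x
    | none, some y => Q y
    | none, none => fun _ => 0
  have hH : Pre H := by
    refine ⟨?_, ?_, ?_, ?_⟩
    · rintro (_ | x) l
      · rfl
      · exact h.diag x l
    · rintro (_ | x) (_ | y) hxy
      · exact absurd rfl hxy
      · exact QL y
      · exact PL x
      · exact h.link x y (by simpa using hxy)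
    · rintro (_ | x) (_ | y) hxy l
      · exact absurd rfl hxy
      · have := PQ y y l; rw [h.diag] at this; simp only [H]; omega
      · have := PQ x x l; rw [h.diag] at this; simp only [H]; omega
      · exact h.rho x y (by simpa using hxy) l
    · rintro (_ | x) (_ | y) (_ | z) l <;> simp only [H]
      · omega
      · omega
      · have := PQ y y l; rw [h.diag] at this; have := CC_pos l; omega
      · exact Qt y z l
      · omega
      · have := PQ x z l; have := h.rho_le x z l; omega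
      · exact Pt x y l
      · exact h.tri x y z l
  obtain ⟨E, hE, hEH⟩ := hH.complete
  have e1 : ∀ x l, E (some x) none l + E none (some x) l = CC l :=
    fun x l => hE.eq _ _ (by simp) l
  refine ⟨fun x => E (some x) none, ⟨fun x => hE.link _ _ (by simp), fun x => ?_, fun x y l => ?_⟩,
    fun i l => ⟨?_, ?_⟩⟩
  · have : (fun l => CC l - E (some x) none l) = E none (some x) := by
      funext l; have := e1 x l; omega
    rw [this]; exact hE.link _ _ (by simp)
  · exact (hE.tri _ (some y) _ l).trans (add_le_add (hEH (some x) (some y) l) le_rfl)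
  · have h3 := hEH (some (b i)) none l
    have h4 := P3 (b i) l i
    rw [h.diag] at h4
    simp only [H] at h3 ⊢
    omega
  · have h3 := hEH none (some (b i)) l
    have h4 := Q3 (b i) l i
    have := e1 (b i) l
    rw [h.diag] at h4
    simp only [H] at h3 ⊢
    omega

theorem Valid.exists_onePt {D : X → X → ℕ → ℤ} (h : Valid D) : ∃ r, OnePt D r := by
  rcases isEmpty_or_nonempty X with hX | ⟨⟨x⟩⟩
  · exact ⟨fun _ => 0, fun x => hX.elim x, fun x => hX.elim x, fun x => hX.elim x⟩
  · obtain ⟨r, hr, -⟩ := h.ext_pt (ι := Unit) (fun _ => x) (fun _ => ee) (fun _ => ee)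
      (fun _ => Lk_ee) (fun _ => Lk_ee) (fun _ _ l => by rw [h.diag, CC]; omega)
    exact ⟨r, hr⟩

/-- a one-point extension of a substructure extends to the whole structure -/
theorem Valid.extend_onePt {D : X → X → ℕ → ℤ} (h : Valid D) {Y : Type*} (f : Y → X)
    {r : Y → ℕ → ℤ} (hr : OnePt (fun x y => D (f x) (f y)) r) :
    ∃ r', OnePt D r' ∧ ∀ y, r' (f y) = r y := by
  rcases isEmpty_or_nonempty Y with hY | hY
  · obtain ⟨r', hr'⟩ := h.exists_onePt
    exact ⟨r', hr', fun y => hY.elim y⟩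
  · obtain ⟨r', h1, h2⟩ := h.ext_pt f r (fun y l => CC l - r y l) hr.link hr.link'
      (fun i j l => by have := hr.tri j i l; omega)
    refine ⟨r', h1, fun y => funext fun l => ?_⟩
    have := h2 y l; omega

end Pool.Agent.Lib.MP_e4697a_lc
end

-- part Pool.Agent.Lib.MP_e4697a_lc.Monster
section

/-!
A universal labelled structure on the ordinals.
-/

set_option autoImplicit false

namespace Pool.Agent.Lib.MP_e4697a_lc

open Set Cardinal

/-- the underlying type of the monster model -/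
abbrev OO : Type 1 := Ordinal.{0}

/-- the compact group of potentials -/
abbrev GG : Type := ∀ n : ℕ, ZMod (2 ^ n)

theorem ord_build {β : Type*} [Inhabited β] (Good : OO → (OO → β) → Prop)
    (loc : ∀ α f g, (∀ γ ≤ α, f γ = g γ) → Good α f → Good α g)
    (step : ∀ α f, (∀ γ < α, Good γ f) → ∃ b, Good α (Function.update f α b)) :
    ∃ f, ∀ α, Good α f := by
  classical
  let F : ∀ α : OO, (∀ γ, γ < α → β) → β := fun α rec =>
    Classical.epsilon fun b => Good α
      (Function.update (fun γ => if h : γ < α then rec γ h else default) α b)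
  let f : OO → β := WellFounded.fix wellFounded_lt F
  have hf : ∀ α, f α = F α fun γ _ => f γ := fun α => WellFounded.fix_eq _ _ _
  refine ⟨f, fun α => ?_⟩
  induction α using WellFoundedLT.induction with
  | ind α ih =>
    let f0 : OO → β := fun γ => if γ < α then f γ else default
    have h0 : ∀ γ < α, Good γ f0 := fun γ hγ =>
      loc γ f f0 (fun δ hδ => by simp only [f0]; rw [if_pos (hδ.trans_lt hγ)]) (ih γ hγ)
    have h1 := Classical.epsilon_spec (step α f0 h0)
    have h2 : f α = Classical.epsilon fun b => Good α (Function.update f0 α b) := by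
      rw [hf α]; simp only [F, f0, dite_eq_ite]
    rw [← h2] at h1
    refine loc α _ f (fun γ hγ => ?_) h1
    rcases hγ.eq_or_lt with rfl | hγ
    · simp
    · rw [Function.update_of_ne hγ.ne]; simp only [f0]; rw [if_pos hγ]

/-- requests for one-point extensions of initial segments -/
abbrev Task : Type 1 := Σ β : OO, (Iio β → ℕ → ℤ) × GG

theorem exists_sched : ∃ τ : OO → Task, ∀ T γ, ∃ α, γ ≤ α ∧ τ α = T := by
  have h1 : #Task ≤ #OO := by
    rw [mk_sigma]
    calc _ ≤ Cardinal.sum fun _ : OO => #OO := by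
          refine Cardinal.sum_le_sum _ _ fun β => ?_
          have : Small.{0} ((Iio β → ℕ → ℤ) × GG) := inferInstance
          have h := small_iff_lift_mk_lt_univ.1 this
          rw [Cardinal.mk_ordinal]
          simpa using h.le
      _ = #OO := by rw [sum_const', mul_eq_self (aleph0_le_mk _)]
  have h2 : #(Task × OO) ≤ #OO := by
    rw [mk_prod, lift_id, lift_id]
    calc _ ≤ #OO * #OO := mul_le_mul_left h1 _
      _ = #OO := mul_eq_self (aleph0_le_mk _)
  obtain ⟨e⟩ := (Cardinal.le_def _ _).1 h2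
  have : Nonempty (Task × OO) := ⟨⟨⟨0, fun _ _ => 0, 0⟩, 0⟩⟩
  refine ⟨fun α => (Function.invFun e α).1, fun T γ => ?_⟩
  by_contra hc
  push Not at hc
  have hs : Function.Injective (fun δ : OO => (⟨e (T, δ), by
      by_contra h
      exact hc _ (not_lt.1 h) (by rw [Function.leftInverse_invFun e.injective])⟩ : Iio γ)) := by
    intro a b hab
    have := e.injective (congrArg Subtype.val hab)
    exact (Prod.ext_iff.1 this).2
  exact not_small_ordinal.{0, 0} (small_of_injective hs)

open Classical in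
/-- the labelled structure determined by its rows -/
noncomputable def mkD (R : OO → OO → ℕ → ℤ) (x y : OO) : ℕ → ℤ :=
  if x < y then R y x else if y < x then fun l => CC l - R x y l else fun _ => 0

theorem mkD_lt (R : OO → OO → ℕ → ℤ) {x y : OO} (h : x < y) : mkD R x y = R y x := by
  simp [mkD, h]

theorem mkD_gt (R : OO → OO → ℕ → ℤ) {x y : OO} (h : y < x) :
    mkD R x y = fun l => CC l - R x y l := by
  simp [mkD, h, h.not_gt]

theorem mkD_self (R : OO → OO → ℕ → ℤ) (x : OO) : mkD R x x = fun _ => 0 := by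
  simp [mkD]

theorem mkD_eq (R : OO → OO → ℕ → ℤ) {x y : OO} (h : x ≠ y) (l : ℕ) :
    mkD R x y l + mkD R y x l = CC l := by
  rcases lt_or_gt_of_ne h with h | h <;> simp [mkD_lt R h, mkD_gt R h]

theorem mkD_congr {R R' : OO → OO → ℕ → ℤ} {x y : OO} (hx : R x = R' x) (hy : R y = R' y) :
    mkD R x y = mkD R' x y := by
  simp [mkD, hx, hy]

theorem valid_mkD (R : OO → OO → ℕ → ℤ) (P : OO → Prop)
    (h : ∀ γ, P γ → OnePt (fun x y : Iio γ => mkD R x y) (fun x => R γ x)) :
    Valid (fun x y : {x // P x} => mkD R x y) := by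
  have key : ∀ γ, P γ → ∀ x y, x < γ → y < γ → ∀ l, R γ x l ≤ mkD R x y l + R γ y l :=
    fun γ hγ x y hx hy l => (h γ hγ).tri ⟨x, hx⟩ ⟨y, hy⟩ l
  have ne : ∀ {x y : {x // P x}}, x ≠ y → x.1 ≠ y.1 := fun h h' => h (Subtype.ext h')
  refine ⟨⟨fun x l => by rw [mkD_self], fun x y hxy => ?_, fun x y hxy l => (mkD_eq R (ne hxy) l).ge,
    ?_⟩, fun x y hxy l => mkD_eq R (ne hxy) l⟩
  · rcases lt_or_gt_of_ne (ne hxy) with h' | h'
    · simp only [mkD_lt R h']; exact (h _ y.2).link ⟨x, h'⟩
    · simp only [mkD_gt R h']; exact (h _ x.2).link' ⟨y, h'⟩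
  · rintro ⟨x, hx⟩ ⟨y, hy⟩ ⟨z, hz⟩ l
    simp only
    by_cases h1 : x = y
    · subst h1; simp [mkD_self]
    by_cases h2 : y = z
    · subst h2; simp [mkD_self]
    by_cases h3 : x = z
    · subst h3; rw [mkD_eq R h1, mkD_self]; exact (CC_pos l).le
    rcases lt_or_gt_of_ne h3 with a | a
    · rcases lt_or_gt_of_ne h2 with b | b
      · rw [mkD_lt R a, mkD_lt R b]; exact key z hz x y a b l
      · have := key y hy z x b (a.trans b) l
        have := mkD_eq R h3 l
        rw [mkD_lt R (a.trans b), mkD_gt R b]; simp only; omega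
    · rcases lt_or_gt_of_ne h1 with b | b
      · have := key y hy z x (a.trans b) b l
        have := mkD_eq R h3 l
        rw [mkD_lt R b, mkD_gt R (a.trans b)]; simp only; omega
      · have := key x hx y z b a l
        rw [mkD_gt R a, mkD_gt R b]; simp only; omega

theorem OnePt.comp {X Y : Type*} {D : X → X → ℕ → ℤ} {r : X → ℕ → ℤ} (h : OnePt D r) (f : Y → X) :
    OnePt (fun x y => D (f x) (f y)) (fun x => r (f x)) :=
  ⟨fun _ => h.link _, fun _ => h.link' _, fun _ _ l => h.tri _ _ l⟩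

theorem exists_monster : ∃ (D : OO → OO → ℕ → ℤ) (π : OO → GG), Valid D ∧
    ∀ (β : OO) (r : OO → ℕ → ℤ) (g : GG), OnePt D r →
      ∃ c, β ≤ c ∧ π c = g ∧ ∀ x < β, D x c = r x := by
  classical
  obtain ⟨τ, hτ⟩ := exists_sched
  obtain ⟨R, hR⟩ := ord_build (β := OO → ℕ → ℤ)
    (fun α R => OnePt (fun x y : Iio α => mkD R x y) (fun x => R α x) ∧
      ((τ α).1 ≤ α → OnePt (fun x y : Iio (τ α).1 => mkD R x y) (τ α).2.1 →
        ∀ x : Iio (τ α).1, R α x = (τ α).2.1 x))
    (fun α f g hfg h => by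
      have e1 : (fun x y : Iio α => mkD f x y) = fun x y : Iio α => mkD g x y := by
        funext x y; exact mkD_congr (hfg _ x.2.le) (hfg _ y.2.le)
      refine ⟨by rw [← e1, ← hfg α le_rfl]; exact h.1, fun hle ho => ?_⟩
      have e2 : (fun x y : Iio (τ α).1 => mkD f x y) = fun x y : Iio (τ α).1 => mkD g x y := by
        funext x y; exact mkD_congr (hfg _ (x.2.le.trans hle)) (hfg _ (y.2.le.trans hle))
      rw [← hfg α le_rfl]; exact h.2 hle (e2 ▸ ho))
    (fun α f h => by
      have hv := valid_mkD f (· < α) fun γ hγ => (h γ hγ).1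
      have e1 : ∀ b, (fun x y : Iio α => mkD (Function.update f α b) x y) =
          fun x y : Iio α => mkD f x y := by
        intro b; funext x y
        exact mkD_congr (Function.update_of_ne x.2.ne _ _) (Function.update_of_ne y.2.ne _ _)
      have key : ∃ r : Iio α → ℕ → ℤ, OnePt (fun x y : Iio α => mkD f x y) r ∧
          ∀ hle : (τ α).1 ≤ α, OnePt (fun x y : Iio (τ α).1 => mkD f x y) (τ α).2.1 →
            ∀ x : Iio (τ α).1, r ⟨x, x.2.trans_le hle⟩ = (τ α).2.1 x := by
        by_cases hc : (τ α).1 ≤ α ∧ OnePt (fun x y : Iio (τ α).1 => mkD f x y) (τ α).2.1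
        · obtain ⟨r, h1, h2⟩ := hv.extend_onePt
            (fun x : Iio (τ α).1 => (⟨x, x.2.trans_le hc.1⟩ : {x // x < α})) hc.2
          exact ⟨r, h1, fun _ _ => h2⟩
        · obtain ⟨r, h1⟩ := hv.exists_onePt
          exact ⟨r, h1, fun a b => absurd ⟨a, b⟩ hc⟩
      obtain ⟨r, h1, h2⟩ := key
      refine ⟨fun x => if hx : x < α then r ⟨x, hx⟩ else 0, ?_, fun hle ho x => ?_⟩
      · rw [e1, Function.update_self]
        convert h1 using 2 with x
        exact dif_pos x.2
      · rw [Function.update_self, dif_pos (x.2.trans_le hle)]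
        refine h2 hle ?_ x
        convert ho using 3 with x y
        exact (mkD_congr (Function.update_of_ne (x.2.trans_le hle).ne _ _)
          (Function.update_of_ne (y.2.trans_le hle).ne _ _)).symm)
  refine ⟨mkD R, fun α => (τ α).2.2, ?_, fun β r g hr => ?_⟩
  · exact (valid_mkD R (fun _ => True) fun γ _ => (hR γ).1).comp
      (f := fun x => ⟨x, trivial⟩) fun a b h => congrArg Subtype.val h
  · obtain ⟨α, h1, h2⟩ := hτ ⟨β, fun x => r x, g⟩ β
    have h3 := (hR α).2
    rw [h2] at h3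
    refine ⟨α, h1, by simp only; rw [h2], fun x hx => ?_⟩
    rw [mkD_lt R (hx.trans_le h1)]
    exact h3 h1 (hr.comp _) ⟨x, hx⟩

/-- the integer labels of the monster model -/
noncomputable def DD : OO → OO → ℕ → ℤ := exists_monster.choose

/-- the potentials of the monster model -/
noncomputable def pp : OO → GG := exists_monster.choose_spec.choose

theorem DD_valid : Valid DD := exists_monster.choose_spec.choose_spec.1

theorem ext_family {ι : Type*} [Small.{0} ι] (b : ι → OO) (p q : ι → ℕ → ℤ)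
    (hp : ∀ i, Lk (p i)) (hq : ∀ i, Lk (q i))
    (hC : ∀ i j l, CC l ≤ p i l + q j l + DD (b j) (b i) l) (g : GG) :
    ∃ c, (∀ i, b i ≠ c) ∧ pp c = g ∧ ∀ i l, DD (b i) c l ≤ p i l ∧ DD c (b i) l ≤ q i l := by
  have key : ∃ r, OnePt DD r ∧ ∀ i l, r (b i) l ≤ p i l ∧ CC l - r (b i) l ≤ q i l := by
    rcases isEmpty_or_nonempty ι with hι | hι
    · obtain ⟨r, hr⟩ := DD_valid.exists_onePt
      exact ⟨r, hr, fun i => hι.elim i⟩
    · exact DD_valid.ext_pt b p q hp hq hC
  obtain ⟨r, h1, h2⟩ := key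
  obtain ⟨β, hβ⟩ := Ordinal.bddAbove_of_small (s := range b)
  have hlt : ∀ i, b i < β + 1 := fun i => (hβ ⟨i, rfl⟩).trans_lt (lt_add_one β)
  obtain ⟨c, c1, c2, c3⟩ := exists_monster.choose_spec.choose_spec.2 (β + 1) r g h1
  refine ⟨c, fun i => ((hlt i).trans_le c1).ne, c2, fun i l => ?_⟩
  have e : DD (b i) c = r (b i) := c3 _ (hlt i)
  have := DD_valid.eq _ _ ((hlt i).trans_le c1).ne l
  have := h2 i l
  rw [e] at *
  omega

end Pool.Agent.Lib.MP_e4697a_lc
end

-- part Pool.Agent.Lib.MP_e4697a_lc.Labels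
section

/-!
Gauge-invariant labels of pairs and the one-point transfer lemmas.
-/

set_option autoImplicit false

namespace Pool.Agent.Lib.MP_e4697a_lc

/-- the residue labels -/
noncomputable def dd (x y : OO) (n : ℕ) : ZMod (2 ^ n) :=
  (DD x y 0 : ZMod (2 ^ n)) + pp y n - pp x n

/-- the digit labels -/
noncomputable def gg (x y : OO) (l : ℕ) : ℤ := Md (l + 1) * DD x y l - DD x y (l + 1)

/-- two pairs have the same labels below level `m` -/
def Sm (m : ℕ) (x y x' y' : OO) : Prop := ∀ n < m, dd x y n = dd x' y' n ∧ gg x y n = gg x' y' n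

/-- two families have the same labels below level `m` -/
def Agree (m : ℕ) {ι : Type*} (a b : ι → OO) : Prop := ∀ i j, Sm m (a i) (a j) (b i) (b j)

theorem gg_self (x : OO) (l : ℕ) : gg x x l = 0 := by simp [gg, DD_valid.diag]

theorem dd_self (x : OO) (n : ℕ) : dd x x n = 0 := by simp [dd, DD_valid.diag]

theorem gg_pos {x y : OO} (h : x ≠ y) (l : ℕ) : 1 ≤ gg x y l := by
  have := DD_valid.link x y h l
  have := FF_lt l (DD x y l)
  unfold gg; omega

theorem gg_rev {x y : OO} (h : x ≠ y) (l : ℕ) : gg y x l = 2 * Md (l + 1) - gg x y l := by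
  have h1 := DD_valid.eq x y h l
  have h2 := DD_valid.eq x y h (l + 1)
  rw [CC_succ, ← h1] at h2
  unfold gg; linarith

theorem gg_mem (x y : OO) (l : ℕ) : gg x y l ∈ Set.Icc 0 (2 * Md (l + 1)) := by
  by_cases h : x = y
  · subst h; rw [gg_self]; have := Md_pos (l + 1); constructor <;> omega
  · have := gg_pos h l
    have := gg_pos (Ne.symm h) l
    have := gg_rev h l
    constructor <;> omega

theorem dd_rev {x y : OO} (h : x ≠ y) (n : ℕ) : dd y x n = 8 - dd x y n := by
  have h1 := DD_valid.eq x y h 0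
  rw [CC_zero] at h1
  have h2 : DD y x 0 = 8 - DD x y 0 := by omega
  unfold dd; rw [h2]; push_cast; ring

theorem Sm.refl (m : ℕ) (x y : OO) : Sm m x y x y := fun _ _ => ⟨rfl, rfl⟩

theorem Sm.diag (m : ℕ) (x y : OO) : Sm m x x y y := fun _ _ => by simp [gg_self, dd_self]

theorem Sm.symm {m : ℕ} {x y x' y' : OO} (h : Sm m x y x' y') : Sm m x' y' x y :=
  fun n hn => ⟨(h n hn).1.symm, (h n hn).2.symm⟩

theorem Sm.trans {m : ℕ} {x y x' y' x'' y'' : OO} (h : Sm m x y x' y') (h' : Sm m x' y' x'' y'') :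
    Sm m x y x'' y'' := fun n hn => ⟨(h n hn).1.trans (h' n hn).1, (h n hn).2.trans (h' n hn).2⟩

theorem Sm.mono {m m' : ℕ} {x y x' y' : OO} (h : Sm m x y x' y') (hm : m' ≤ m) :
    Sm m' x y x' y' := fun n hn => h n (hn.trans_le hm)

theorem Sm.eq_iff {m : ℕ} {x y x' y' : OO} (h : Sm m x y x' y') (hm : 1 ≤ m) :
    x = y ↔ x' = y' := by
  have h0 := (h 0 hm).2
  constructor
  · rintro rfl
    by_contra hc
    have := gg_pos hc 0
    rw [gg_self] at h0; omega
  · rintro rfl
    by_contra hc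
    have := gg_pos hc 0
    rw [gg_self] at h0; omega

theorem Sm.rev {m : ℕ} {x y x' y' : OO} (h : Sm m x y x' y') : Sm m y x y' x' := by
  intro n hn
  have he := h.eq_iff (by omega)
  by_cases hxy : x = y
  · subst hxy; obtain rfl := he.1 rfl; exact h n hn
  · have hxy' : x' ≠ y' := fun e => hxy (he.2 e)
    rw [dd_rev hxy, dd_rev hxy', gg_rev hxy, gg_rev hxy', (h n hn).1, (h n hn).2]
    exact ⟨rfl, rfl⟩

theorem Agree.mono {m m' : ℕ} {ι : Type*} {a b : ι → OO} (h : Agree m a b) (hm : m' ≤ m) :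
    Agree m' a b := fun i j => (h i j).mono hm

theorem Agree.symm {m : ℕ} {ι : Type*} {a b : ι → OO} (h : Agree m a b) : Agree m b a :=
  fun i j => (h i j).symm

theorem hol_eq {m : ℕ} (hm : 5 ≤ m) {x y z x' y' z' : OO} (h1 : Sm m x y x' y')
    (h2 : Sm m y z y' z') (h3 : Sm m x z x' z') :
    DD x y 0 + DD y z 0 - DD x z 0 = DD x' y' 0 + DD y' z' 0 - DD x' z' 0 := by
  have key : ∀ x y z : OO, ((DD x y 0 + DD y z 0 - DD x z 0 : ℤ) : ZMod (2 ^ 4)) =
      dd x y 4 + dd y z 4 - dd x z 4 := by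
    intro x y z; unfold dd; push_cast; ring
  have bd : ∀ x y z : OO, 0 ≤ DD x y 0 + DD y z 0 - DD x z 0 ∧
      DD x y 0 + DD y z 0 - DD x z 0 ≤ 8 := by
    intro x y z
    have := DD_valid.tri x y z 0
    have := DD_valid.tri y x z 0
    have := DD_valid.rho_le x y 0
    rw [CC_zero] at this
    omega
  have e := key x y z
  rw [(h1 4 (by omega)).1, (h2 4 (by omega)).1, (h3 4 (by omega)).1, ← key,
    ZMod.intCast_eq_intCast_iff_dvd_sub] at e
  have := bd x y z
  have := bd x' y' z'
  push_cast at e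
  omega

theorem DD_of_gg {m : ℕ} {x y x' y' : OO} (h : Sm m x y x' y') {k : ℤ}
    (h0 : DD x' y' 0 = DD x y 0 + k) : ∀ l ≤ m, DD x' y' l = DD x y l + k * sc l := by
  intro l
  induction l with
  | zero => intro _; simp [sc, h0]
  | succ l ih =>
    intro hl
    have h1 := (h l (by omega)).2
    unfold gg at h1
    rw [ih (by omega)] at h1
    rw [sc_succ]; linarith

theorem Agree.gauge {m : ℕ} (hm : 5 ≤ m) {ι : Type*} {a b : ι → OO} (h : Agree m a b) (o i j : ι) :
    ∀ l ≤ m, DD (b i) (b j) l = DD (a i) (a j) l +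
      ((DD (b i) (b o) 0 - DD (a i) (a o) 0) - (DD (b j) (b o) 0 - DD (a j) (a o) 0)) * sc l :=
  DD_of_gg (h i j) (by have := hol_eq hm (h i j) (h j o) (h i o); omega)

theorem Sm_of_DD {m : ℕ} {x y x' y' : OO} {k : ℤ}
    (h1 : ∀ l ≤ m, DD x' y' l = DD x y l + k * sc l)
    (h2 : ∀ n < m, (k : ZMod (2 ^ n)) + pp y' n - pp x' n = pp y n - pp x n) :
    Sm m x y x' y' := by
  intro n hn
  constructor
  · unfold dd
    rw [h1 0 (by omega)]
    simp only [sc, mul_one]
    push_cast
    linear_combination -(h2 n hn)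
  · unfold gg
    rw [h1 n hn.le, h1 (n + 1) hn, sc_succ]; ring

theorem tails_ok {m : ℕ} {u v w : ℕ → ℤ} (h1 : ∀ l ≤ m + 1, CC l ≤ tail m u l + tail m v l + w l)
    (hw : w = 0 ∨ Lk fun l => CC l - w l) (l : ℕ) :
    CC l ≤ tail m u l + tail m v l + w l := by
  by_cases hl : l ≤ m + 1
  · exact h1 l hl
  have hl' : m + 1 ≤ l := by omega
  induction l, hl' using Nat.le_induction with
  | base => exact h1 _ le_rfl
  | succ l hl' ih =>
    have ih' : CC l ≤ tail m u l + tail m v l + w l := by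
      by_cases h : l ≤ m + 1
      · exact h1 l h
      · exact ih h
    have e : tail m u (l + 1) + tail m v (l + 1) = FF l (tail m u l + tail m v l) := by
      rw [tail_succ u (by omega), tail_succ v (by omega), FF_add_eq]
      have := df_tail u (show m ≤ l by omega)
      have := df_tail v (show m ≤ l by omega)
      have := Md_mono hl'
      have := Md_succ m
      omega
    rw [e]
    rcases hw with rfl | hw
    · have h2 := FF_mono l (show CC l ≤ tail m u l + tail m v l by simpa using ih')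
      have h3 := FF_ge l (CC l)
      have h4 := CC_succ l
      have h5 := Md_succ l
      have h6 := Md_pos l
      simp only [Pi.zero_apply]
      omega
    · have h2 := FF_mono l (show CC l - w l ≤ tail m u l + tail m v l by omega)
      have h3 := hw l
      simp only at h3
      omega

theorem DD_zero_or (x y : OO) : DD x y = 0 ∨ Lk fun l => CC l - DD x y l := by
  by_cases h : x = y
  · subst h; left; funext l; exact DD_valid.diag x l
  · right
    have : (fun l => CC l - DD x y l) = DD y x := by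
      funext l; have := DD_valid.eq x y h l; omega
    rw [this]; exact DD_valid.link _ _ (Ne.symm h)

theorem Sm_transfer {m : ℕ} {x o z x' o' c : OO} (h : Sm m x o x' o')
    (hc : pp c = pp z + pp o' - pp o)
    (hD : ∀ l ≤ m, DD x' c l = DD x z l + (DD x' o' 0 - DD x o 0) * sc l) : Sm m x z x' c := by
  refine Sm_of_DD hD fun n hn => ?_
  have h1 := (h n hn).1
  unfold dd at h1
  rw [hc]
  simp only [Pi.add_apply, Pi.sub_apply]
  push_cast
  linear_combination -h1

theorem forth {m : ℕ} (hm : 4 ≤ m) {ι : Type*} [Small.{0} ι] {a b : ι → OO}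
    (h : Agree (m + 1) a b) (z : OO) : ∃ z', ∀ i, Sm m (a i) z (b i) z' := by
  by_cases hz : ∃ i0, a i0 = z
  · obtain ⟨i0, rfl⟩ := hz
    exact ⟨b i0, fun i => (h i i0).mono (by omega)⟩
  push Not at hz
  rcases isEmpty_or_nonempty ι with hι | ⟨⟨o⟩⟩
  · exact ⟨z, fun i => hι.elim i⟩
  let J : ι → ℤ := fun i => DD (b i) (b o) 0 - DD (a i) (a o) 0
  have hu : ∀ i, Lk fun l => DD (a i) z l + J i * sc l :=
    fun i => (DD_valid.link _ _ (hz i)).gauge _
  have hv : ∀ i, Lk fun l => DD z (a i) l + -J i * sc l :=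
    fun i => (DD_valid.link _ _ (hz i).symm).gauge _
  obtain ⟨c, c1, c2, c3⟩ := ext_family b (fun i => tail m fun l => DD (a i) z l + J i * sc l)
    (fun i => tail m fun l => DD z (a i) l + -J i * sc l)
    (fun i => Lk_tail fun l _ => hu i l) (fun i => Lk_tail fun l _ => hv i l)
    (fun i j => tails_ok (fun l hl => by
      have h1 := le_tail (m := m) (N := m + 1) (fun l _ => hu i l) l hl
      have h2 := le_tail (m := m) (N := m + 1) (fun l _ => hv j l) l hl
      have h3 := h.gauge (by omega) o j i l hl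
      have h4 := DD_valid.tri (a j) (a i) z l
      have h5 := DD_valid.eq _ _ (hz j) l
      simp only [J] at h1 h2 ⊢
      linarith) (DD_zero_or _ _)) (pp z + pp (b o) - pp (a o))
  refine ⟨c, fun i => Sm_transfer ((h i o).mono (by omega)) c2 fun l hl => ?_⟩
  have h1 := c3 i l
  simp only [tail_of_le _ hl] at h1
  refine DD_valid.eq_of_le (c1 i) h1.1 h1.2 ?_
  have := DD_valid.eq _ _ (hz i) l
  linarith

theorem forth_full {ι : Type*} [Small.{0} ι] {a b : ι → OO}
    (h : ∀ m, Agree m a b) (z : OO) : ∃ z', ∀ m i, Sm m (a i) z (b i) z' := by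
  by_cases hz : ∃ i0, a i0 = z
  · obtain ⟨i0, rfl⟩ := hz
    exact ⟨b i0, fun m i => h m i i0⟩
  push Not at hz
  rcases isEmpty_or_nonempty ι with hι | ⟨⟨o⟩⟩
  · exact ⟨z, fun _ i => hι.elim i⟩
  let J : ι → ℤ := fun i => DD (b i) (b o) 0 - DD (a i) (a o) 0
  obtain ⟨c, c1, c2, c3⟩ := ext_family b (fun i l => DD (a i) z l + J i * sc l)
    (fun i l => DD z (a i) l + -J i * sc l)
    (fun i => (DD_valid.link _ _ (hz i)).gauge _)
    (fun i => (DD_valid.link _ _ (hz i).symm).gauge _)
    (fun i j l => by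
      have h3 := (h (l + 5)).gauge (by omega) o j i l (by omega)
      have h4 := DD_valid.tri (a j) (a i) z l
      have h5 := DD_valid.eq _ _ (hz j) l
      simp only [J]
      linarith) (pp z + pp (b o) - pp (a o))
  refine ⟨c, fun m i => Sm_transfer (h m i o) c2 fun l _ => ?_⟩
  have h1 := c3 i l
  refine DD_valid.eq_of_le (c1 i) h1.1 h1.2 ?_
  have := DD_valid.eq _ _ (hz i) l
  linarith

/-- finite valid structures embed, with prescribed potentials -/
theorem embed_finite {Y : Type*} [Finite Y] {D : Y → Y → ℕ → ℤ} (hD : Valid D) (g : Y → GG) :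
    ∃ e : Y → OO, (∀ y, pp (e y) = g y) ∧ ∀ x y, DD (e x) (e y) = D x y := by
  classical
  have key : ∀ s : Finset Y, ∃ e : Y → OO, (∀ y ∈ s, pp (e y) = g y) ∧
      ∀ x ∈ s, ∀ y ∈ s, DD (e x) (e y) = D x y := by
    intro s
    induction s using Finset.induction_on with
    | empty => exact ⟨fun _ => 0, by simp, by simp⟩
    | insert z s hz ih =>
      obtain ⟨e, e1, e2⟩ := ih
      have ne : ∀ i : s, (i : Y) ≠ z := fun i h => hz (h ▸ i.2)
      obtain ⟨c, c1, c2, c3⟩ := ext_family (fun i : s => e i) (fun i => D i z) (fun i => D z i)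
        (fun i => hD.link _ _ (ne i)) (fun i => hD.link _ _ (ne i).symm)
        (fun i j l => by
          rw [e2 _ j.2 _ i.2]
          have := hD.tri j i z l
          have := hD.eq _ _ (ne j) l
          omega) (g z)
      have c4 : ∀ y ∈ s, DD (e y) c = D y z ∧ DD c (e y) = D z y := by
        intro y hy
        constructor <;> funext l
        · exact DD_valid.eq_of_le (c1 ⟨y, hy⟩) (c3 ⟨y, hy⟩ l).1 (c3 ⟨y, hy⟩ l).2
            (hD.rho_le _ _ _)
        · exact DD_valid.eq_of_le (c1 ⟨y, hy⟩).symm (c3 ⟨y, hy⟩ l).2 (c3 ⟨y, hy⟩ l).1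
            (hD.rho_le _ _ _)
      have up : ∀ y ∈ s, Function.update e z c y = e y :=
        fun y hy => Function.update_of_ne (ne ⟨y, hy⟩) _ _
      refine ⟨Function.update e z c, ?_, ?_⟩
      · intro y hy
        rcases Finset.mem_insert.1 hy with rfl | hy
        · simpa using c2
        · rw [up y hy]; exact e1 y hy
      · intro x hx y hy
        rcases Finset.mem_insert.1 hx with hx' | hx' <;>
          rcases Finset.mem_insert.1 hy with hy' | hy'
        · funext l; rw [hx', hy', DD_valid.diag, hD.diag]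
        · rw [up y hy', hx', Function.update_self]; exact (c4 y hy').2
        · rw [up x hx', hy', Function.update_self]; exact (c4 x hx').1
        · rw [up x hx', up y hy']; exact e2 x hx' y hy'
  have := Fintype.ofFinite Y
  obtain ⟨e, e1, e2⟩ := key Finset.univ
  exact ⟨e, fun y => e1 y (Finset.mem_univ _),
    fun x y => e2 x (Finset.mem_univ _) y (Finset.mem_univ _)⟩

end Pool.Agent.Lib.MP_e4697a_lc
end

-- part Pool.Agent.Lib.MP_e4697a_lc.QE
section

/-!
The language, the structure on the ordinals, and level-wise quantifier elimination.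
-/

set_option autoImplicit false

namespace Pool.Agent.Lib.MP_e4697a_lc

open FirstOrder FirstOrder.Language

/-- relation symbols -/
inductive Rl : ℕ → Type
  | mk : ℕ → ℤ → ℤ → Rl 2

/-- the language -/
def LL : FirstOrder.Language.{0, 0} := ⟨fun _ => Empty, Rl⟩

noncomputable instance strLL : LL.Structure OO where
  funMap f _ := Empty.elim f
  RelMap | .mk n r v => fun x => dd (x 0) (x 1) n = (r : ZMod (2 ^ n)) ∧ gg (x 0) (x 1) n = v

theorem relMap_mk (n : ℕ) (r v : ℤ) (x : Fin 2 → OO) :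
    Structure.RelMap (L := LL) (Rl.mk n r v) x ↔
      dd (x 0) (x 1) n = (r : ZMod (2 ^ n)) ∧ gg (x 0) (x 1) n = v := Iff.rfl

/-- the relation symbols as symbols of the language -/
def rsym (n : ℕ) (r v : ℤ) : LL.Relations 2 := Rl.mk n r v

theorem relMap_rsym (n : ℕ) (r v : ℤ) (x : Fin 2 → OO) :
    Structure.RelMap (rsym n r v) x ↔
      dd (x 0) (x 1) n = (r : ZMod (2 ^ n)) ∧ gg (x 0) (x 1) n = v := Iff.rfl

theorem term_var {β : Type*} (t : LL.Term β) : ∃ i, t = Term.var i := by
  cases t with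
  | var i => exact ⟨i, rfl⟩
  | func f _ => exact Empty.elim f

/-- variables that are bound or belong to `s` -/
def Inn {α : Type*} {n : ℕ} (s : Finset α) : α ⊕ Fin n → Prop := Sum.elim (· ∈ s) fun _ => True

theorem Inn.mono {α : Type*} {n : ℕ} {s t : Finset α} (h : s ⊆ t) {i : α ⊕ Fin n}
    (hi : Inn s i) : Inn t i := by
  cases i with
  | inl a => exact h hi
  | inr _ => trivial

theorem exists_Inn {α : Type*} {n : ℕ} (i j : α ⊕ Fin n) : ∃ s : Finset α, Inn s i ∧ Inn s j := by
  classical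
  rcases i with a | a <;> rcases j with b | b
  · exact ⟨{a, b}, by simp [Inn], by simp [Inn]⟩
  · exact ⟨{a}, by simp [Inn], trivial⟩
  · exact ⟨{b}, trivial, by simp [Inn]⟩
  · exact ⟨∅, trivial, trivial⟩

instance finite_Inn {α : Type*} {n : ℕ} (s : Finset α) : Finite {i : α ⊕ Fin n // Inn s i} := by
  refine Finite.of_surjective (α := s ⊕ Fin n)
    (Sum.elim (fun a => ⟨Sum.inl a.1, a.2⟩) fun k => ⟨Sum.inr k, trivial⟩) ?_
  rintro ⟨a | k, h⟩
  · exact ⟨Sum.inl ⟨a, h⟩, rfl⟩
  · exact ⟨Sum.inr k, rfl⟩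

/-- agreement on the relevant variables -/
def AgreeOn (m : ℕ) {α : Type*} {n : ℕ} (s : Finset α) (a b : α ⊕ Fin n → OO) : Prop :=
  ∀ i j, Inn s i → Inn s j → Sm m (a i) (a j) (b i) (b j)

theorem AgreeOn.snoc {m : ℕ} (hm : 4 ≤ m) {α : Type*} {n : ℕ} {s : Finset α} {v w : α → OO}
    {xs ys : Fin n → OO} (h : AgreeOn (m + 1) s (Sum.elim v xs) (Sum.elim w ys)) (a : OO) :
    ∃ a', AgreeOn m s (Sum.elim v (Fin.snoc xs a : Fin (n + 1) → OO))
      (Sum.elim w (Fin.snoc ys a' : Fin (n + 1) → OO)) := by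
  obtain ⟨a', ha'⟩ := forth hm (ι := {i : α ⊕ Fin n // Inn s i}) (a := fun i => Sum.elim v xs i)
    (b := fun i => Sum.elim w ys i) (fun i j => h i j i.2 j.2) a
  have H : ∀ i : α ⊕ Fin (n + 1), Inn s i →
      (Sum.elim v (Fin.snoc xs a : Fin (n + 1) → OO) i = a ∧
        Sum.elim w (Fin.snoc ys a' : Fin (n + 1) → OO) i = a') ∨
      ∃ i0, Inn s i0 ∧ Sum.elim v (Fin.snoc xs a : Fin (n + 1) → OO) i = Sum.elim v xs i0 ∧
        Sum.elim w (Fin.snoc ys a' : Fin (n + 1) → OO) i = Sum.elim w ys i0 := by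
    rintro (i | k) hi
    · exact Or.inr ⟨Sum.inl i, hi, rfl, rfl⟩
    · refine Fin.lastCases ?_ (fun k => ?_) k
      · left; simp
      · right; exact ⟨Sum.inr k, trivial, by simp, by simp⟩
  refine ⟨a', fun i j hi hj => ?_⟩
  rcases H i hi with ⟨e1, e2⟩ | ⟨i0, h0, e1, e2⟩ <;>
    rcases H j hj with ⟨e3, e4⟩ | ⟨j0, h1, e3, e4⟩ <;> rw [e1, e2, e3, e4]
  · exact Sm.diag _ _ _
  · exact (ha' ⟨j0, h1⟩).rev
  · exact ha' ⟨i0, h0⟩
  · exact (h i0 j0 h0 h1).mono (by omega)

theorem qe_bounded {α : Type*} {n : ℕ} (φ : LL.BoundedFormula α n) :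
    ∃ (m : ℕ) (s : Finset α), ∀ (v w : α → OO) (xs ys : Fin n → OO),
      AgreeOn m s (Sum.elim v xs) (Sum.elim w ys) → (φ.Realize v xs ↔ φ.Realize w ys) := by
  classical
  induction φ with
  | falsum => exact ⟨0, ∅, fun _ _ _ _ _ => Iff.rfl⟩
  | equal t1 t2 =>
    obtain ⟨i, rfl⟩ := term_var t1
    obtain ⟨j, rfl⟩ := term_var t2
    obtain ⟨s, hi, hj⟩ := exists_Inn i j
    exact ⟨1, s, fun v w xs ys h => (h i j hi hj).eq_iff le_rfl⟩
  | rel R ts =>
    cases R with
    | mk k r u =>
      obtain ⟨i, hi0⟩ := term_var (ts 0)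
      obtain ⟨j, hj0⟩ := term_var (ts 1)
      obtain ⟨s, hi, hj⟩ := exists_Inn i j
      refine ⟨k + 1, s, fun v w xs ys h => ?_⟩
      have := h i j hi hj k (by omega)
      simp only [BoundedFormula.Realize, relMap_mk, hi0, hj0, Term.realize_var, this.1, this.2]
  | imp φ ψ ih1 ih2 =>
    obtain ⟨m1, s1, h1⟩ := ih1
    obtain ⟨m2, s2, h2⟩ := ih2
    refine ⟨max m1 m2, s1 ∪ s2, fun v w xs ys h => ?_⟩
    rw [BoundedFormula.realize_imp, BoundedFormula.realize_imp,
      h1 v w xs ys fun i j hi hj => (h i j (hi.mono Finset.subset_union_left)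
        (hj.mono Finset.subset_union_left)).mono (le_max_left _ _),
      h2 v w xs ys fun i j hi hj => (h i j (hi.mono Finset.subset_union_right)
        (hj.mono Finset.subset_union_right)).mono (le_max_right _ _)]
  | all φ ih =>
    obtain ⟨m, s, h1⟩ := ih
    refine ⟨max m 4 + 1, s, fun v w xs ys h => ?_⟩
    rw [BoundedFormula.realize_all, BoundedFormula.realize_all]
    constructor
    · intro H a
      obtain ⟨a', ha⟩ := AgreeOn.snoc (le_max_right m 4) (v := w) (w := v) (xs := ys) (ys := xs)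
        (fun i j hi hj => (h i j hi hj).symm) a
      exact (h1 _ _ _ _ fun i j hi hj => (ha i j hi hj).mono (le_max_left _ _)).2 (H a')
    · intro H a
      obtain ⟨a', ha⟩ := AgreeOn.snoc (le_max_right m 4) h a
      exact (h1 _ _ _ _ fun i j hi hj => (ha i j hi hj).mono (le_max_left _ _)).2 (H a')

theorem qe {α : Type*} (φ : LL.Formula α) :
    ∃ (m : ℕ) (s : Finset α), ∀ v w : α → OO,
      (∀ i ∈ s, ∀ j ∈ s, Sm m (v i) (v j) (w i) (w j)) → (φ.Realize v ↔ φ.Realize w) := by
  obtain ⟨m, s, h⟩ := qe_bounded φ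
  refine ⟨m, s, fun v w H => h v w _ _ ?_⟩
  rintro (i | i) (j | j) hi hj
  · exact H i hi j hj
  · exact j.elim0
  · exact i.elim0
  · exact i.elim0

theorem agree_of_formulas {α : Type*} {v w : α → OO}
    (h : ∀ φ : LL.Formula α, φ.Realize v ↔ φ.Realize w) (m : ℕ) : Agree m v w := by
  intro i j n _
  obtain ⟨r, hr⟩ := ZMod.intCast_surjective (dd (v i) (v j) n)
  have := h (Relations.formula₂ (rsym n r (gg (v i) (v j) n)) (Term.var i) (Term.var j))
  rw [Formula.realize_rel₂, Formula.realize_rel₂, relMap_rsym, relMap_rsym] at this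
  simp only [Term.realize_var, Matrix.cons_val_zero,
    Matrix.cons_val_one, Matrix.cons_val_fin_one, hr, and_self, true_iff] at this
  exact ⟨this.1.symm, this.2.symm⟩

theorem Sm_equiv (σ : FirstOrder.Language.Equiv LL OO OO) (m : ℕ) (x y : OO) : Sm m x y (σ x) (σ y) := by
  intro n _
  obtain ⟨r, hr⟩ := ZMod.intCast_surjective (dd x y n)
  have := σ.map_rel (rsym n r (gg x y n)) ![x, y]
  simp only [relMap_rsym, Function.comp_apply, Matrix.cons_val_zero,
    Matrix.cons_val_one, Matrix.cons_val_fin_one, hr, and_self, iff_true] at this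
  exact ⟨this.1.symm, this.2.symm⟩

end Pool.Agent.Lib.MP_e4697a_lc
end
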